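import Pool.Agent.ANO3.Sys.Facts

/-!
# ANO3, module Sys: compactness in the product situation (package SYS-CPTSET)

`bounded_I`: `bounded_pair` for the systems `isSys_I`, `isSym_I`, `isSys_I'`.
`bounded_X`: the same for `X` (or `bounded_I` with `t = 1`, `DUI_one`).
`vertex_X`: `bounded_vertex` for `isSys_X`, `isSym_X`, `isSys_X'`, `isSym_X'`.
`cocompact_NN`: for each `i` take the `ε` and the compact set of `bounded_X` (if `w' i`, `w'' i` are
regular, `γ i = 1`) or of `vertex_X` (if `w' i = w'' i ∉ U`); `isCompact_box`.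
`isCompact_NN`: closed subset of a compact set.
`orbit_u`: (B1) `bounded_orbit` for the forward orbit: if `x` is in the u-leaf of a regular `w` with
`H i w = w` then the `i`-th coordinates of `T'^n x`, `n ≥ 0`, are in a compact set.
`small_orbit`: contraction: if `DS` is bounded on the point then it decreases under `T'`:
`DS (inl w) (inr (T'^[n] x)) ≤ DS (inl w) (inr x) / l^(m n)` (`DS_lift`, `H i w = w`).
-/

set_option autoImplicit false

open scoped UpperHalfPlane MatrixGroups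
open Set Filter Topology

namespace Pool.Agent.ANO3

open Pool.Agent.ANO Pool.Agent.ANO2 Pool.Agent.ANO3.Tree

variable {r k : ℕ} {S : Fin r → SurfaceMap} {F : ∀ i, Flat (S i)} {T₀ T : X r k ≃ₜ X r k}

theorem bounded_I (h : Setting S T₀ T) (i : Fin r) {w' w'' : ℍ} (hw' : (F i).Reg w') :
    ∃ ε > 0, ∃ K : Set ℍ, IsCompact K ∧ ∀ y : unitInterval × X r k,
      DUI F T₀ T i (Sum.inl w') (Sum.inr y) ≤ ε → DSI F T₀ T i (Sum.inl w'') (Sum.inr y) ≤ ε →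
        y.2.1 i ∈ K :=
  bounded_pair (F := F i) (h.isSys_I i) (h.isSym_I i) (h.isSys_I' i) (w'' := w'') hw'

theorem bounded_X (h : Setting S T₀ T) (i : Fin r) {w' w'' : ℍ} (hw' : (F i).Reg w') :
    ∃ ε > 0, ∃ K : Set ℍ, IsCompact K ∧ ∀ x : X r k,
      DU F T i (Sum.inl w') (Sum.inr x) ≤ ε → DS F T i (Sum.inl w'') (Sum.inr x) ≤ ε →
        x.1 i ∈ K :=
  bounded_pair (F := F i) (h.isSys_X i) (h.isSym_X i) (h.isSys_X' i) (w'' := w'') hw'

theorem vertex_X (h : Setting S T₀ T) (i : Fin r) {v : ℍ} (hv : v ∉ (F i).U) :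
    ∃ ε > 0, ∃ K : Set ℍ, IsCompact K ∧ ∀ x : X r k,
      DU F T i (Sum.inl v) (Sum.inr x) ≤ ε → DS F T i (Sum.inl v) (Sum.inr x) ≤ ε →
        ∃ γ ∈ (S i).Γ, (F i).Eqv v (γ • v) ∧ γ • x.1 i ∈ K :=
  bounded_vertex (F := F i) (h.isSys_X i) (h.isSym_X i) (h.isSys_X' i) (h.isSym_X' i) hv

private theorem one_CptSet {S : Fin r → SurfaceMap} {F : ∀ i, Flat (S i)}
    {T₀ T : X r k ≃ₜ X r k} (h : Setting S T₀ T) {w' w'' : Fin r → ℍ}
    (hw : ∀ i, (F i).Reg (w' i) ∨ w' i = w'' i ∧ w' i ∉ (F i).U) (i : Fin r) :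
    ∃ ε > 0, ∃ K : Set ℍ, IsCompact K ∧ ∀ x : X r k,
      DU F T i (Sum.inl (w' i)) (Sum.inr x) ≤ ε → DS F T i (Sum.inl (w'' i)) (Sum.inr x) ≤ ε →
        ∃ γ ∈ (S i).Γ, ((F i).Reg (w' i) → γ = 1) ∧ (F i).Eqv (w' i) (γ • w' i) ∧
          (F i).Eqv (w'' i) (γ • w'' i) ∧ γ • x.1 i ∈ K := by
  rcases hw i with hr | ⟨he, hv⟩
  · obtain ⟨ε, hε, K, hK, hx⟩ := bounded_X (F := F) h i (w'' := w'' i) hr
    refine ⟨ε, hε, K, hK, fun x h1 h2 => ⟨1, one_mem _, fun _ => rfl, ?_, ?_, ?_⟩⟩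
    · rw [one_smul]
      exact ⟨(F i).dual_u.self _, (F i).dual_s.self _⟩
    · rw [one_smul]
      exact ⟨(F i).dual_u.self _, (F i).dual_s.self _⟩
    · rw [one_smul]
      exact hx x h1 h2
  · obtain ⟨ε, hε, K, hK, hx⟩ := vertex_X (F := F) h i hv
    refine ⟨ε, hε, K, hK, fun x h1 h2 => ?_⟩
    rw [← he] at h2
    obtain ⟨γ, hγ, h3, h4⟩ := hx x h1 h2
    refine ⟨γ, hγ, fun hr => absurd hr.1 hv, h3, ?_, h4⟩
    rw [← he]
    exact h3

/-- points which are almost in `NN F T w' w''` are in a compact set, up to the stabilizers -/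
theorem cocompact_NN {S : Fin r → SurfaceMap} {F : ∀ i, Flat (S i)} {T₀ T : X r 0 ≃ₜ X r 0}
    (h : Setting S T₀ T) {w' w'' : Fin r → ℍ}
    (hw : ∀ i, (F i).Reg (w' i) ∨ w' i = w'' i ∧ w' i ∉ (F i).U) :
    ∃ ε > 0, ∃ K : Set (X r 0), IsCompact K ∧ ∀ x,
      (∀ i, DU F T i (Sum.inl (w' i)) (Sum.inr x) ≤ ε ∧
        DS F T i (Sum.inl (w'' i)) (Sum.inr x) ≤ ε) →
      ∃ γ : Fin r → SL(2, ℝ), InΓ S γ ∧ (∀ i, (F i).Reg (w' i) → γ i = 1) ∧
        (∀ i, (F i).Eqv (w' i) (γ i • w' i)) ∧ (∀ i, (F i).Eqv (w'' i) (γ i • w'' i)) ∧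
        dk γ (fun j => j.elim0) x ∈ K := by
  choose e he K hK hx using one_CptSet (F := F) h hw
  have h1 : ∀ i, ∀ᶠ ε in 𝓝[>] (0 : ℝ), ε ≤ e i := by
    intro i
    filter_upwards [Ioc_mem_nhdsGT (he i)] with ε hε
    exact hε.2
  obtain ⟨ε, hε, hε0⟩ := ((eventually_all.2 h1).and self_mem_nhdsWithin).exists
  refine ⟨ε, hε0, {x : X r 0 | ∀ i, x.1 i ∈ K i}, isCompact_box hK, fun x hxe => ?_⟩
  choose γ hγ h2 h3 h4 h5 using fun i =>
    hx i x ((hxe i).1.trans (hε i)) ((hxe i).2.trans (hε i))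
  exact ⟨γ, hγ, h2, h3, h4, h5⟩

theorem isCompact_NN {S : Fin r → SurfaceMap} {F : ∀ i, Flat (S i)} {T₀ T : X r 0 ≃ₜ X r 0}
    (h : Setting S T₀ T) {w' w'' : Fin r → ℍ} (hw : ∀ i, (F i).Reg (w' i)) :
    IsCompact (NN F T w' w'') := by
  choose ε hε K hK hx using fun i => bounded_X (F := F) h i (w'' := w'' i) (hw i)
  refine (isCompact_box hK).of_isClosed_subset (isClosed_NN h w' w'') fun x hxN i => ?_
  exact hx i x (by rw [(hxN i).1]; exact (hε i).le) (by rw [(hxN i).2]; exact (hε i).le)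

theorem orbit_u (h : Setting S T₀ T) {m : ℕ} {T' : X r k ≃ₜ X r k} {H : Fin r → ℍ ≃ₜ ℍ}
    (h' : IsLift S T m T' H) {i : Fin r} {w : ℍ} (hw : (F i).Reg w) (hHw : H i w = w) (b : ℝ) :
    ∃ K : Set ℍ, IsCompact K ∧ ∀ x, DU F T i (Sum.inl w) (Sum.inr x) = 0 →
      DS F T i (Sum.inl w) (Sum.inr x) ≤ b → ∀ n, (T'^[n] x).1 i ∈ K := by
  obtain ⟨C, -, hC⟩ := abs_Dis_sub_le (F i).rev (h.isSys_X' i)
  obtain ⟨K, hK, hx⟩ := bounded_orbit (F := F i) (h.isSys_X i) (h.isSym_X i) hw (h'.isPow i) hHw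
    (b + C)
  refine ⟨K, hK, fun x h1 h2 n => hx x h1 ?_ n⟩
  have h3 := hC (Sum.inl w) (Sum.inr x)
  have h4 : |DS F T i (Sum.inl w) (Sum.inr x) - (F i).ds w (pX i x)| ≤ C := h3
  have h5 := (abs_le.1 h4).1
  linarith

theorem orbit_s (h : Setting S T₀ T) {m : ℕ} {T' : X r k ≃ₜ X r k} {H : Fin r → ℍ ≃ₜ ℍ}
    (h' : IsLift S T m T' H) {i : Fin r} {w : ℍ} (hw : (F i).Reg w) (hHw : H i w = w) (b : ℝ) :
    ∃ K : Set ℍ, IsCompact K ∧ ∀ x, DS F T i (Sum.inl w) (Sum.inr x) = 0 →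
      DU F T i (Sum.inl w) (Sum.inr x) ≤ b → ∀ n, (T'.symm^[n] x).1 i ∈ K := by
  have h1 : (H i).symm w = w := by
    rw [Homeomorph.symm_apply_eq]
    exact hHw.symm
  obtain ⟨K, hK, hx⟩ := orbit_u (F := fun i => (F i).rev) h.symm (h'.symm h) (i := i) (w := w)
    (Flat.reg_rev.2 hw) h1 b
  exact ⟨K, hK, fun x h2 h3 n => hx x h2 h3 n⟩

theorem DS_iterate (h : Setting S T₀ T) {m : ℕ} {T' : X r k ≃ₜ X r k} {H : Fin r → ℍ ≃ₜ ℍ}
    (h' : IsLift S T m T' H) {i : Fin r} {w : ℍ} (hHw : H i w = w) (n : ℕ) (x : X r k) :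
    (F i).l ^ (m * n) * DS F T i (Sum.inl w) (Sum.inr (T'^[n] x)) ≤
      DS F T i (Sum.inl w) (Sum.inr x) := by
  have hl : 0 < (F i).l := lt_trans one_pos (F i).one_lt
  induction n with
  | zero => simp
  | succ n ih =>
    have h1 := (DS_lift (F := F) h h' i (Sum.inl w) (Sum.inr (T'^[n] x))).1
    have e1 : st (H i) T' (Sum.inl w) = Sum.inl w := congrArg Sum.inl hHw
    have e2 : st (H i) T' (Sum.inr (T'^[n] x)) = (Sum.inr (T'^[n + 1] x) : ℍ ⊕ X r k) := by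
      rw [Function.iterate_succ_apply']
      rfl
    rw [e1, e2] at h1
    have h2 := mul_le_mul_of_nonneg_left h1 (pow_pos hl (m * n)).le
    rw [← mul_assoc, ← pow_add] at h2
    rw [Nat.mul_succ]
    exact h2.trans ih

theorem DU_iterate (h : Setting S T₀ T) {m : ℕ} {T' : X r k ≃ₜ X r k} {H : Fin r → ℍ ≃ₜ ℍ}
    (h' : IsLift S T m T' H) {i : Fin r} {w : ℍ} (hHw : H i w = w) (n : ℕ) (x : X r k) :
    (F i).l ^ (m * n) * DU F T i (Sum.inl w) (Sum.inr x) ≤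
      DU F T i (Sum.inl w) (Sum.inr (T'^[n] x)) := by
  have hl : 0 < (F i).l := lt_trans one_pos (F i).one_lt
  induction n with
  | zero => simp
  | succ n ih =>
    have h1 := (DU_lift (F := F) h h' i (Sum.inl w) (Sum.inr (T'^[n] x))).1
    have e1 : st (H i) T' (Sum.inl w) = Sum.inl w := congrArg Sum.inl hHw
    have e2 : st (H i) T' (Sum.inr (T'^[n] x)) = (Sum.inr (T'^[n + 1] x) : ℍ ⊕ X r k) := by
      rw [Function.iterate_succ_apply']
      rfl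
    rw [e1, e2] at h1
    have h2 := mul_le_mul_of_nonneg_left ih (pow_pos hl m).le
    rw [← mul_assoc, ← pow_add, add_comm m (m * n), ← Nat.mul_succ] at h2
    exact h2.trans h1

end Pool.Agent.ANO3
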