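import Pool.Agent.ANO3.Sys.Sym
import Pool.Agent.ANO3.Surf.Reg
import Pool.Agent.ANO3.Surf.Vertex

/-!
# ANO3, module Sys: compactness (package SYS-CPT)

`contr` (B0): let `C₀` be the constant of `bdd` and `C₁` the one of `Flat.upper`. By `scale_s`
`ds (p (R^[n+1] y)) (f^[n+1] z) ≤ C₁ + ds (f (p (R^[n] y))) (f (f^[n] z))
≤ C₁ + ds (p (R^[n] y)) (f^[n] z) / l`, so `ds (p (R^[n] y)) (f^[n] z) ≤ ds (p y) z / l^n + C` with
`C = C₁ l / (l - 1)`; `ds` is invariant under `γ` and `p (ρ y) = γ • p y`.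

`bounded_of_small`: let `K ⊆ Y` be compact with `G K = Y` (`cocompact`), `K₁ = p K`, `M` a bound of
`ds` on `K₁ × K₁`, and `ε` the number of `Flat.Reg.finite_u` for the bound `2 b + M`; `ε' = ε / 4`.
`K` has a finite cover by open sets `O_j` with `Dis (inr y) (inr y') ≤ ε'` for `y, y' ∈ O_j`
(`continuous_Dis`, `Dis y y = 0`). For `y` with `Dis (inl w) (inr y) ≤ ε'`, `ds w (p y) ≤ b` choose
`g = (γ, ρ) ∈ G` with `ρ y ∈ K`, and `j` with `ρ y ∈ O_j`. If `y'`, `γ'` is another such pair with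
the same `j` then `du (γ • w) (γ' • w) ≤ 3 ε' ≤ ε` (`Dis_act`, `Dis_inl`) and
`ds (γ • w) (γ' • w) ≤ 2 b + M`. So, for each `j`, fixing one `γ₀` the points `γ₀⁻¹ • γ' • w` are in
a finite set. Hence the set of all `γ • w` which occur is finite, `γ • w = γ' • w` implies that
`γ`, `γ'` act in the same way (`free`), and `p y = γ⁻¹ • p (ρ y) ∈ γ⁻¹ • K₁`: a finite union of
compact sets.

`bounded_orbit` (B1): `Dis (inl w) (inr y) = 0` gives `Dis (inl w) (inr (R'^[n] y)) = 0`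
(`Dis_pow_zero` for `IsPow.iterate`, `H^[n] w = w`) and
`ds w (p (R'^[n] y)) ≤ ds w (p y) + C` (`contr`, `l^(m n) ≥ 1`); `bounded_of_small`.

`bounded_pair` (B3): `R` covers `f`, `Q` covers `f⁻¹`. From
`Dis F.rev (inl w'') (inr y) ≤ ε ≤ 1` we get `ds w'' (p y) ≤ 1 + C` (`abs_Dis_sub_le` for `F.rev`),
so `ds w' (p y) ≤ ds w' w'' + 1 + C`; `bounded_of_small` for `w'`.

`bounded_vertex`: let `ε₀` be the number of `sep`, `ε = ε₀ / 4`, `K` compact with `G K = Y`,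
cover `K` by finitely many open sets `O_j` on which both pseudo-distances are `≤ ε`. For `y` with
both distances from `v` at most `ε` choose `g = (γ, ρ)` with `ρ y ∈ O_j`. For another such pair
`y'`, `γ'` with the same `j` the points `γ • v`, `γ' • v` (not in `U`) have both distances
`≤ 3 ε < ε₀`, so they are equivalent. Fix one `γ_j` for each `j` that occurs; then `γ_j⁻¹ γ` maps
`v`
to an equivalent point and `γ_j⁻¹ γ • p y = γ_j⁻¹ • p (ρ y) ∈ γ_j⁻¹ • p K`.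
Here `G` acts for both systems with the same `ρ`, so `Dis_act` applies to both.
-/

set_option autoImplicit false

open scoped UpperHalfPlane MatrixGroups
open Set Filter Topology

namespace Pool.Agent.ANO3

open Pool.Agent.ANO Pool.Agent.ANO2 Pool.Agent.ANO3.Tree

variable {S : SurfaceMap} {F : Flat S} {Y : Type*} [TopologicalSpace Y] {p : Y → ℍ}
  {R Q : Y → Y} {G : Set (SL(2, ℝ) × (Y → Y))}

private theorem iter_Cpt (F : Flat S) (hs : IsSys S p R) : ∃ C : ℝ, 0 ≤ C ∧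
    ∀ (m : ℕ) (y : Y) (z : ℍ),
      F.ds (p (R^[m] y)) (S.f^[m] z) ≤ F.ds (p y) z / F.l ^ m + C := by
  obtain ⟨C₀, hC₀⟩ := hs.bdd
  obtain ⟨C₂, hC₂⟩ := F.upper C₀
  obtain ⟨C₁, hC₁0, hC₁⟩ : ∃ C₁ : ℝ, 0 ≤ C₁ ∧ ∀ y, F.ds (p (R y)) (S.f (p y)) ≤ C₁ :=
    ⟨max C₂ 0, le_max_right _ _, fun y => ((hC₂ _ _ (hC₀ y)).2).trans (le_max_left _ _)⟩
  have hl := F.one_lt
  have hl0 : 0 < F.l := by linarith
  have hl1 : 0 < F.l - 1 := by linarith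
  obtain ⟨C, hC⟩ : ∃ C : ℝ, C = C₁ * F.l / (F.l - 1) := ⟨_, rfl⟩
  have hC0 : 0 ≤ C := by
    rw [hC]
    positivity
  have hCeq : C₁ + C / F.l = C := by
    rw [hC]
    field_simp
    ring
  refine ⟨C, hC0, fun m => ?_⟩
  induction m with
  | zero =>
    intro y z
    simp only [Function.iterate_zero, id_eq, pow_zero, div_one]
    linarith
  | succ n ih =>
    intro y z
    rw [Function.iterate_succ_apply', Function.iterate_succ_apply']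
    have h1 := F.isTree_s.triangle (p (R (R^[n] y))) (S.f (p (R^[n] y))) (S.f (S.f^[n] z))
    have h2 := (F.scale_s (p (R^[n] y)) (S.f^[n] z)).1
    have h3 : F.ds (S.f (p (R^[n] y))) (S.f (S.f^[n] z))
        ≤ F.ds (p (R^[n] y)) (S.f^[n] z) / F.l := by
      rw [le_div_iff₀ hl0]
      linarith
    have h4 := hC₁ (R^[n] y)
    have h5 : F.ds (p (R^[n] y)) (S.f^[n] z) / F.l
        ≤ (F.ds (p y) z / F.l ^ n + C) / F.l :=
      div_le_div_of_nonneg_right (ih y z) hl0.le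
    have h6 : (F.ds (p y) z / F.l ^ n + C) / F.l = F.ds (p y) z / F.l ^ (n + 1) + C / F.l := by
      rw [add_div, div_div, ← pow_succ]
    linarith

variable (F) in
theorem contr (hs : IsSys S p R) (hG : IsSym S p R G) : ∃ C : ℝ, 0 ≤ C ∧
    ∀ (m : ℕ) (H : ℍ ≃ₜ ℍ) (R' : Y → Y), IsPow S R G m H R' → ∀ (y : Y) (z : ℍ),
      F.ds (p (R' y)) (H z) ≤ F.ds (p y) z / F.l ^ m + C := by
  obtain ⟨C, hC0, hC⟩ := iter_Cpt F hs
  refine ⟨C, hC0, fun m H R' h y z => ?_⟩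
  obtain ⟨g, hg, hH, hR⟩ := h
  rw [hH, hR, hG.equivar g hg, F.ds_smul (hG.mem g hg)]
  exact hC m y z

private theorem cover_Cpt {K : Set Y} (hK : IsCompact K) {D : Y → Y → ℝ}
    (hD : ∀ y, Continuous (D y)) (h0 : ∀ y, D y y = 0) {ε : ℝ} (hε : 0 < ε) :
    ∃ t : Finset Y, ∀ y ∈ K, ∃ x ∈ t, D x y < ε := by
  obtain ⟨t, -, ht⟩ := hK.elim_nhds_subcover (fun x => {y | D x y < ε}) (fun x _ => by
    refine (isOpen_lt (hD x) continuous_const).mem_nhds ?_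
    show D x x < ε
    rw [h0]
    exact hε)
  refine ⟨t, fun y hy => ?_⟩
  obtain ⟨x, hx⟩ := mem_iUnion.1 (ht hy)
  obtain ⟨hx1, hx2⟩ := mem_iUnion.1 hx
  exact ⟨x, hx1, hx2⟩

private theorem cont_Cpt (F : Flat S) (hs : IsSys S p R) (x : Y) :
    Continuous fun y => Dis F p R (Sum.inr x) (Sum.inr y) :=
  (continuous_Dis F hs).comp (continuous_const.prodMk continuous_inr)

/-- the distances of four points -/
private theorem four_Cpt (F : Flat S) (hs : IsSys S p R) (hG : IsSym S p R G) {w : ℍ}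
    {g g' : SL(2, ℝ) × (Y → Y)} (hg : g ∈ G) (hg' : g' ∈ G) {x y y' : Y} {ε : ℝ}
    (h1 : Dis F p R (Sum.inl w) (Sum.inr y) ≤ ε) (h2 : Dis F p R (Sum.inr x) (Sum.inr (g.2 y)) < ε)
    (h1' : Dis F p R (Sum.inl w) (Sum.inr y') ≤ ε)
    (h2' : Dis F p R (Sum.inr x) (Sum.inr (g'.2 y')) < ε) :
    F.du (g.1 • w) (g'.1 • w) < 4 * ε := by
  have ht := isTree_Dis F hs (p := p) (R := R)
  have e1 : Dis F p R (Sum.inl (g.1 • w)) (Sum.inr (g.2 y)) = Dis F p R (Sum.inl w) (Sum.inr y) :=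
    Dis_act F hG hg (Sum.inl w) (Sum.inr y)
  have e2 : Dis F p R (Sum.inl (g'.1 • w)) (Sum.inr (g'.2 y'))
      = Dis F p R (Sum.inl w) (Sum.inr y') :=
    Dis_act F hG hg' (Sum.inl w) (Sum.inr y')
  have h3 := Dis_inl F (p := p) (R := R) (g.1 • w) (g'.1 • w)
  have h4 := ht.triangle (Sum.inl (g.1 • w)) (Sum.inr (g.2 y)) (Sum.inl (g'.1 • w))
  have h5 := ht.triangle (Sum.inr (g.2 y)) (Sum.inr x) (Sum.inl (g'.1 • w))
  have h6 := ht.triangle (Sum.inr x) (Sum.inr (g'.2 y')) (Sum.inl (g'.1 • w))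
  rw [ht.symm (Sum.inr (g.2 y)) (Sum.inr x)] at h5
  rw [ht.symm (Sum.inr (g'.2 y')) (Sum.inl (g'.1 • w))] at h6
  linarith

theorem bounded_of_small (hs : IsSys S p R) (hG : IsSym S p R G) {w : ℍ} (hw : F.Reg w)
    (b : ℝ) : ∃ ε > 0, ∃ K : Set ℍ, IsCompact K ∧ ∀ y,
      Dis F p R (Sum.inl w) (Sum.inr y) ≤ ε → F.ds w (p y) ≤ b → p y ∈ K := by
  classical
  obtain ⟨K₀, hK₀, hcov⟩ := hG.cocompact
  have hK₁ : IsCompact (p '' K₀) := hK₀.image hs.cont_p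
  obtain ⟨M, hM⟩ := (hK₁.prod hK₁).bddAbove_image F.dual_s.cont.continuousOn
  have hM' : ∀ y ∈ K₀, ∀ y' ∈ K₀, F.ds (p y) (p y') ≤ M := fun y hy y' hy' =>
    hM (mem_image_of_mem _ (show (p y, p y') ∈ (p '' K₀) ×ˢ (p '' K₀) from
      ⟨mem_image_of_mem _ hy, mem_image_of_mem _ hy'⟩))
  obtain ⟨ε₀, hε₀, hfin⟩ := hw.finite_u (2 * b + M)
  obtain ⟨t, ht⟩ := cover_Cpt hK₀ (cont_Cpt F hs)
    (fun y => (isTree_Dis F hs (p := p) (R := R)).self (Sum.inr y)) (show 0 < ε₀ / 4 by linarith)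
  have hts := F.isTree_s
  have hA : ∀ x : Y, {a : ℍ | ∃ g ∈ G, ∃ y, Dis F p R (Sum.inl w) (Sum.inr y) ≤ ε₀ / 4 ∧
      F.ds w (p y) ≤ b ∧ g.2 y ∈ K₀ ∧ Dis F p R (Sum.inr x) (Sum.inr (g.2 y)) < ε₀ / 4 ∧
        a = g.1 • w}.Finite := by
    intro x
    rcases eq_empty_or_nonempty {a : ℍ | ∃ g ∈ G, ∃ y,
      Dis F p R (Sum.inl w) (Sum.inr y) ≤ ε₀ / 4 ∧
      F.ds w (p y) ≤ b ∧ g.2 y ∈ K₀ ∧ Dis F p R (Sum.inr x) (Sum.inr (g.2 y)) < ε₀ / 4 ∧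
        a = g.1 • w} with h0 | ⟨a₀, g₀, hg₀, y₀, h1, h2, h3, h4, -⟩
    · rw [h0]
      exact finite_empty
    · refine (hfin.image (fun z => g₀.1 • z)).subset ?_
      rintro a ⟨g, hg, y, k1, k2, k3, k4, rfl⟩
      have hΓ₀ := hG.mem g₀ hg₀
      have hΓ := hG.mem g hg
      refine ⟨g₀.1⁻¹ • (g.1 • w), ⟨⟨g₀.1⁻¹ * g.1, mul_mem (inv_mem hΓ₀) hΓ, ?_⟩, ?_, ?_⟩, ?_⟩
      · rw [smul_smul]
      · have h5 := four_Cpt F hs hG hg₀ hg h1 h4 k1 k4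
        have h6 := F.du_smul hΓ₀ w (g₀.1⁻¹ • (g.1 • w))
        rw [smul_inv_smul] at h6
        rw [← h6]
        linarith
      · have h6 := F.ds_smul hΓ₀ w (g₀.1⁻¹ • (g.1 • w))
        rw [smul_inv_smul] at h6
        rw [← h6]
        have h7 := hts.triangle (g₀.1 • w) (p (g₀.2 y₀)) (g.1 • w)
        have h8 := hts.triangle (p (g₀.2 y₀)) (p (g.2 y)) (g.1 • w)
        have h9 := hM' _ h3 _ k3
        have h10 : F.ds (g₀.1 • w) (p (g₀.2 y₀)) = F.ds w (p y₀) := by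
          rw [hG.equivar g₀ hg₀, F.ds_smul hΓ₀]
        have h11 : F.ds (p (g.2 y)) (g.1 • w) = F.ds w (p y) := by
          rw [hG.equivar g hg, F.ds_smul hΓ, hts.symm]
        linarith
      · exact smul_inv_smul _ _
  have hAll : {a : ℍ | ∃ g ∈ G, ∃ y, Dis F p R (Sum.inl w) (Sum.inr y) ≤ ε₀ / 4 ∧
      F.ds w (p y) ≤ b ∧ g.2 y ∈ K₀ ∧ a = g.1 • w}.Finite := by
    refine (t.finite_toSet.biUnion (fun x _ => hA x)).subset ?_
    rintro a ⟨g, hg, y, k1, k2, k3, rfl⟩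
    obtain ⟨x, hx, hx2⟩ := ht _ k3
    exact mem_biUnion (show x ∈ (t : Set Y) from hx) ⟨g, hg, y, k1, k2, k3, hx2, rfl⟩
  obtain ⟨A, hAdef⟩ : ∃ A : Set ℍ, A = {a : ℍ | ∃ g ∈ G, ∃ y,
      Dis F p R (Sum.inl w) (Sum.inr y) ≤ ε₀ / 4 ∧
      F.ds w (p y) ≤ b ∧ g.2 y ∈ K₀ ∧ a = g.1 • w} := ⟨_, rfl⟩
  rw [← hAdef] at hAll
  have hc : ∀ a : ℍ, ∃ γ : SL(2, ℝ), a ∈ A → γ ∈ S.Γ ∧ γ • w = a := by
    intro a
    by_cases ha : a ∈ A
    · have ha' := ha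
      rw [hAdef] at ha'
      obtain ⟨g, hg, y, -, -, -, h4⟩ := ha'
      exact ⟨g.1, fun _ => ⟨hG.mem g hg, h4.symm⟩⟩
    · exact ⟨1, fun h => absurd h ha⟩
  choose c hc using hc
  refine ⟨ε₀ / 4, by linarith, ⋃ a ∈ A, (fun z : ℍ => (c a)⁻¹ • z) '' (p '' K₀),
    hAll.isCompact_biUnion (fun a _ => hK₁.image (continuous_const_smul _)), fun y h1 h2 => ?_⟩
  obtain ⟨g, hg, hgy⟩ := hcov y
  have hmem : g.1 • w ∈ A := by
    rw [hAdef]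
    exact ⟨g, hg, y, h1, h2, hgy, rfl⟩
  obtain ⟨hcΓ, hcw⟩ := hc _ hmem
  refine mem_biUnion hmem ⟨p (g.2 y), mem_image_of_mem _ hgy, ?_⟩
  have h3 : ((c (g.1 • w))⁻¹ * g.1) • w = w := by
    rw [mul_smul, inv_smul_eq_iff]
    exact hcw.symm
  have h4 := S.free _ (mul_mem (inv_mem hcΓ) (hG.mem g hg)) w h3 (p y)
  show (c (g.1 • w))⁻¹ • p (g.2 y) = p y
  rw [hG.equivar g hg, ← mul_smul]
  exact h4

theorem bounded_orbit (hs : IsSys S p R) (hG : IsSym S p R G) {w : ℍ} (hw : F.Reg w) {m : ℕ}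
    {H : ℍ ≃ₜ ℍ} {R' : Y → Y} (h : IsPow S R G m H R') (hHw : H w = w) (b : ℝ) :
    ∃ K : Set ℍ, IsCompact K ∧ ∀ y, Dis F p R (Sum.inl w) (Sum.inr y) = 0 →
      F.ds w (p y) ≤ b → ∀ n, p (R'^[n] y) ∈ K := by
  obtain ⟨C, hC0, hC⟩ := contr F hs hG
  obtain ⟨ε, hε, K, hK, hKy⟩ := bounded_of_small hs hG hw (b + C)
  refine ⟨K, hK, fun y h1 h2 n => hKy _ ?_ ?_⟩
  · obtain ⟨H', hP, hH'⟩ := h.iterate hG n
    have h3 := (Dis_pow_zero F hs hG hP (Sum.inl w) (Sum.inr y)).2 h1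
    have h4 : H' w = w := by
      rw [hH']
      exact Function.iterate_fixed hHw n
    have h5 : Dis F p R (Sum.inl (H' w)) (Sum.inr (R'^[n] y)) = 0 := h3
    rw [h4] at h5
    rw [h5]
    exact hε.le
  · obtain ⟨H', hP, hH'⟩ := h.iterate hG n
    have h4 : H' w = w := by
      rw [hH']
      exact Function.iterate_fixed hHw n
    have h5 := hC _ _ _ hP y w
    rw [h4] at h5
    have h6 : F.ds (p y) w / F.l ^ (m * n) ≤ F.ds (p y) w :=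
      div_le_self (F.ds_nonneg _ _) (one_le_pow₀ F.one_lt.le)
    rw [F.isTree_s.symm (p y) w] at h6 h5
    rw [F.isTree_s.symm w]
    linarith

theorem bounded_pair (hs : IsSys S p R) (hG : IsSym S p R G) (hs' : IsSys (rev S) p Q)
    {w' w'' : ℍ} (hw' : F.Reg w') : ∃ ε > 0, ∃ K : Set ℍ, IsCompact K ∧ ∀ y,
      Dis F p R (Sum.inl w') (Sum.inr y) ≤ ε →
        Dis F.rev p Q (Sum.inl w'') (Sum.inr y) ≤ ε → p y ∈ K := by
  obtain ⟨C, hC0, hC⟩ := abs_Dis_sub_le F.rev hs'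
  obtain ⟨ε, hε, K, hK, hKy⟩ := bounded_of_small hs hG hw' (F.ds w' w'' + 1 + C)
  refine ⟨min ε 1, lt_min hε one_pos, K, hK, fun y h1 h2 => hKy y (h1.trans (min_le_left _ _)) ?_⟩
  have h3 : |Dis F.rev p Q (Sum.inl w'') (Sum.inr y) - F.ds w'' (p y)| ≤ C :=
    hC (Sum.inl w'') (Sum.inr y)
  have h4 := h2.trans (min_le_right _ _)
  have h5 := (abs_le.1 h3).1
  have h6 := F.isTree_s.triangle w' w'' (p y)
  linarith

theorem bounded_vertex (hs : IsSys S p R) (hG : IsSym S p R G) (hs' : IsSys (rev S) p Q)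
    (hG' : IsSym (rev S) p Q G) {v : ℍ} (hv : v ∉ F.U) :
    ∃ ε > 0, ∃ K : Set ℍ, IsCompact K ∧ ∀ y, Dis F p R (Sum.inl v) (Sum.inr y) ≤ ε →
      Dis F.rev p Q (Sum.inl v) (Sum.inr y) ≤ ε →
        ∃ γ ∈ S.Γ, F.Eqv v (γ • v) ∧ γ • p y ∈ K := by
  classical
  obtain ⟨K₀, hK₀, hcov⟩ := hG.cocompact
  have hK₁ : IsCompact (p '' K₀) := hK₀.image hs.cont_p
  obtain ⟨ε₀, hε₀, hsep⟩ := F.sep
  obtain ⟨t, ht⟩ := cover_Cpt hK₀
    (D := fun x y =>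
      max (Dis F p R (Sum.inr x) (Sum.inr y)) (Dis F.rev p Q (Sum.inr x) (Sum.inr y)))
    (fun x => (cont_Cpt F hs x).max (cont_Cpt F.rev hs' x))
    (fun y => by
      show max (Dis F p R (Sum.inr y) (Sum.inr y)) (Dis F.rev p Q (Sum.inr y) (Sum.inr y)) = 0
      rw [(isTree_Dis F hs).self, (isTree_Dis F.rev hs').self, max_self])
    (show 0 < ε₀ / 4 by linarith)
  have hc : ∀ x : Y, ∃ γ₀ ∈ S.Γ, ∀ g ∈ G, ∀ y, Dis F p R (Sum.inl v) (Sum.inr y) ≤ ε₀ / 4 →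
      Dis F.rev p Q (Sum.inl v) (Sum.inr y) ≤ ε₀ / 4 →
      Dis F p R (Sum.inr x) (Sum.inr (g.2 y)) < ε₀ / 4 →
      Dis F.rev p Q (Sum.inr x) (Sum.inr (g.2 y)) < ε₀ / 4 →
        F.Eqv v ((γ₀⁻¹ * g.1) • v) := by
    intro x
    by_cases hx : ∃ g ∈ G, ∃ y, Dis F p R (Sum.inl v) (Sum.inr y) ≤ ε₀ / 4 ∧
      Dis F.rev p Q (Sum.inl v) (Sum.inr y) ≤ ε₀ / 4 ∧
      Dis F p R (Sum.inr x) (Sum.inr (g.2 y)) < ε₀ / 4 ∧
      Dis F.rev p Q (Sum.inr x) (Sum.inr (g.2 y)) < ε₀ / 4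
    · obtain ⟨g₀, hg₀, y₀, h1, h2, h3, h4⟩ := hx
      have hΓ₀ := hG.mem g₀ hg₀
      refine ⟨g₀.1, hΓ₀, fun g hg y k1 k2 k3 k4 => ?_⟩
      have hΓ := hG.mem g hg
      have h5 : F.du (g₀.1 • v) (g.1 • v) < 4 * (ε₀ / 4) :=
        four_Cpt F hs hG hg₀ hg h1 h3 k1 k3
      have h6 : F.ds (g₀.1 • v) (g.1 • v) < 4 * (ε₀ / 4) :=
        four_Cpt F.rev hs' hG' hg₀ hg h2 h4 k2 k4
      have h7 := hsep (g₀.1 • v) (g.1 • v) (fun h => hv ((F.inv _ hΓ₀ v).1 h))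
        (fun h => hv ((F.inv _ hΓ v).1 h)) (by linarith) (by linarith)
      have h8 := F.du_smul hΓ₀ v ((g₀.1⁻¹ * g.1) • v)
      have h9 := F.ds_smul hΓ₀ v ((g₀.1⁻¹ * g.1) • v)
      rw [← mul_smul, mul_inv_cancel_left] at h8 h9
      exact ⟨h8.symm.trans h7.1, h9.symm.trans h7.2⟩
    · refine ⟨1, one_mem _, fun g hg y k1 k2 k3 k4 => ?_⟩
      exact absurd ⟨g, hg, y, k1, k2, k3, k4⟩ hx
  choose c hcΓ hc using hc
  refine ⟨ε₀ / 4, by linarith, ⋃ x ∈ (t : Set Y), (fun z : ℍ => (c x)⁻¹ • z) '' (p '' K₀),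
    t.finite_toSet.isCompact_biUnion (fun a _ => hK₁.image (continuous_const_smul _)),
    fun y h1 h2 => ?_⟩
  obtain ⟨g, hg, hgy⟩ := hcov y
  obtain ⟨x, hx, hx2⟩ := ht _ hgy
  have hx3 := max_lt_iff.1 hx2
  refine ⟨(c x)⁻¹ * g.1, mul_mem (inv_mem (hcΓ x)) (hG.mem g hg), hc x g hg y h1 h2 hx3.1 hx3.2, ?_⟩
  refine mem_biUnion (show x ∈ (t : Set Y) from hx) ⟨p (g.2 y), mem_image_of_mem _ hgy, ?_⟩
  show (c x)⁻¹ • p (g.2 y) = ((c x)⁻¹ * g.1) • p y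
  rw [hG.equivar g hg, mul_smul]

end Pool.Agent.ANO3
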