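import Pool.Agent.ANO3.Surf.Defs

/-!
# ANO3, module Sys: systems over a surface map (definitions)

Paper proof `/team-store/ANO3_Blueprint.md`, section 2.  `Y` is a space with a map `p : Y → ℍ` and a
map `R : Y → Y` which covers the lift `f` of the surface map up to a bounded distance.  On the
disjoint union `ℍ ⊕ Y` we consider the pseudo-distance `lim du (f⁻ⁿ (p (Rⁿ a))) (f⁻ⁿ (p (Rⁿ b)))`
(`f` on `ℍ` itself).  For the second tree use `F.rev`, `f⁻¹` and a map `R` which covers `f⁻¹`.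
-/

set_option autoImplicit false

open scoped UpperHalfPlane MatrixGroups
open Set Filter Topology

namespace Pool.Agent.ANO3

open Pool.Agent.ANO Pool.Agent.ANO2 Pool.Agent.ANO3.Tree

variable {S : SurfaceMap} {Y : Type*}

/-- The projection of `ℍ ⊕ Y` to `ℍ`. -/
def pr (p : Y → ℍ) : ℍ ⊕ Y → ℍ := Sum.elim id p

/-- The map `f` on `ℍ`, `R` on `Y`. -/
def st (f : ℍ → ℍ) (R : Y → Y) : ℍ ⊕ Y → ℍ ⊕ Y := Sum.map f R

/-- The `n`-th approximation in `ℍ` of a point of `ℍ ⊕ Y`. -/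
noncomputable def ap (S : SurfaceMap) (p : Y → ℍ) (R : Y → Y) (n : ℕ) (a : ℍ ⊕ Y) : ℍ :=
  S.f.symm^[n] (pr p ((st S.f R)^[n] a))

/-- The limit pseudo-distance on `ℍ ⊕ Y`. -/
noncomputable def Dis (F : Flat S) (p : Y → ℍ) (R : Y → Y) (a b : ℍ ⊕ Y) : ℝ :=
  limUnder atTop fun n : ℕ => F.du (ap S p R n a) (ap S p R n b)

/-- `R` covers the lift of the surface map up to a bounded distance. -/
structure IsSys (S : SurfaceMap) [TopologicalSpace Y] (p : Y → ℍ) (R : Y → Y) : Prop where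
  cont_p : Continuous p
  cont_R : Continuous R
  bdd : ∃ C, ∀ y, dist (p (R y)) (S.f (p y)) ≤ C

/-- `G` is a set of symmetries `(γ, ρ)`: `ρ : Y → Y` lies over `γ ∈ Γ`. -/
structure IsSym (S : SurfaceMap) [TopologicalSpace Y] (p : Y → ℍ) (R : Y → Y)
    (G : Set (SL(2, ℝ) × (Y → Y))) : Prop where
  mem : ∀ g ∈ G, g.1 ∈ S.Γ
  equivar : ∀ g ∈ G, ∀ y, p (g.2 y) = g.1 • p y
  step : ∀ g ∈ G, ∃ g' ∈ G, (∀ z : ℍ, S.f (g.1 • z) = g'.1 • S.f z) ∧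
    ∀ y, R (g.2 y) = g'.2 (R y)
  one : ∃ g ∈ G, (∀ z : ℍ, g.1 • z = z) ∧ ∀ y, g.2 y = y
  mul : ∀ g ∈ G, ∀ g' ∈ G, ∃ g'' ∈ G, (∀ z : ℍ, g''.1 • z = g.1 • g'.1 • z) ∧
    ∀ y, g''.2 y = g.2 (g'.2 y)
  inv : ∀ g ∈ G, ∃ g' ∈ G, (∀ z : ℍ, g'.1 • g.1 • z = z) ∧ ∀ y, g'.2 (g.2 y) = y
  cocompact : ∃ K : Set Y, IsCompact K ∧ ∀ y, ∃ g ∈ G, g.2 y ∈ K

/-- The action of a symmetry on `ℍ ⊕ Y`. -/
noncomputable def act (g : SL(2, ℝ) × (Y → Y)) : ℍ ⊕ Y → ℍ ⊕ Y := Sum.map (fun z : ℍ => g.1 • z) g.2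

/-- `(H, R')` is a lift of the `m`-th power of `(f, R)`. -/
def IsPow (S : SurfaceMap) (R : Y → Y) (G : Set (SL(2, ℝ) × (Y → Y))) (m : ℕ) (H : ℍ ≃ₜ ℍ)
    (R' : Y → Y) : Prop :=
  ∃ g ∈ G, (∀ z, H z = g.1 • S.f^[m] z) ∧ ∀ y, R' y = g.2 (R^[m] y)

open Classical in
/-- The chosen arc at a point `w` of `U`. -/
noncomputable def Flat.zz (F : Flat S) (w : ℍ) : ℍ × ℍ :=
  if h : ∃ q : ℍ × ℍ, ∃ t, IsArc F.du w q.1 q.2 t then h.choose else (w, w)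

/-- The signed distance of `w` on `ℍ`. -/
noncomputable def Flat.sg (F : Flat S) (w : ℍ) : ℍ → ℝ :=
  sdist F.du w (F.zz w).1 (F.zz w).2

/-- The signed distance of `w` on `ℍ ⊕ Y`. -/
noncomputable def sgn (F : Flat S) (p : Y → ℍ) (R : Y → Y) (w : ℍ) : ℍ ⊕ Y → ℝ :=
  sdist (Dis F p R) (Sum.inl w) (Sum.inl (F.zz w).1) (Sum.inl (F.zz w).2)

/-- The leaf of `w` is contained in `U`. -/
def Flat.Leaf (F : Flat S) (w : ℍ) : Prop := ∀ z, F.du w z = 0 → z ∈ F.U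

end Pool.Agent.ANO3
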