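import Pool.Agent.ANO3.Sys.Sym
import Pool.Agent.ANO3.Surf.Local
import Pool.Agent.ANO3.Surf.Reg

/-!
# ANO3, module Sys: the signed distance of a regular leaf (package SYS-SGN)

`isArc_zz`: `exists_isArc` and the definition of `zz`. `isArc_Dis`: `Dis_inl`.
`two_arms_Dis`: if `a`, `b`, `c` have positive distance from `inl w` choose points `z_a, z_b, z_c`
of `ℍ` in the same arms (`exists_near`, `sameArm_of_lt`) and use `Flat.two_arms`.
`twoSided_Dis`: as `Flat.twoSided`: `side = 0` and `0 < Dis (inl w) a` means that `a` is not in the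
arms of `zm`, `zp` (`side_eq_zero_iff`, `sameArm_iff_gp`), and these two are different arms
(`gp = 0`).
`abs_sgn`, `lipschitz_sgn`: `abs_sdist`, `sdist_lipschitz`. `continuous_sgn`: `continuous_Dis` and
the Lipschitz estimate. `sgn_inl`: `Dis_inl` (unfold `sdist`, `side`).
`sgn_pos_iff`: `0 < sgn a` iff `SameArm (inl w) a (inl zp)`; `sgn_neg_iff` with `zm`
(`sdist_pos_iff`, `side_pos_iff`).
`sameArm_iff_sgn`: two points are in the same arm at `w` iff their signed distances have the same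
sign and are not `0`.
`sign_pow`: for a lift with `H w = w`: by `sameArm_pow` the map preserves the relation of being in
the same arm at `w`, there are exactly two arms (those of `zm` and `zp`), and
`sgn (st H R' a) = 0 ↔ sgn a = 0` (`Dis_pow_zero`, `abs_sgn`). If `H zp` is in the arm of `zp` take
`ε = 1`, otherwise `ε = -1`.
-/

set_option autoImplicit false

open scoped UpperHalfPlane MatrixGroups
open Set Filter Topology

namespace Pool.Agent.ANO3

open Pool.Agent.ANO Pool.Agent.ANO2 Pool.Agent.ANO3.Tree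

variable {S : SurfaceMap} {F : Flat S} {Y : Type*} [TopologicalSpace Y] {p : Y → ℍ} {R : Y → Y}
  {G : Set (SL(2, ℝ) × (Y → Y))}

theorem Flat.Reg.leaf {w : ℍ} (hw : F.Reg w) : F.Leaf w := by
  intro z hz
  exact hw.leaf_u hz

theorem Flat.Leaf.isArc_zz {w : ℍ} (hw : F.Leaf w) :
    ∃ t, IsArc F.du w (F.zz w).1 (F.zz w).2 t := by
  obtain ⟨t, zm, zp, h⟩ := Flat.exists_isArc (hw w (F.isTree_u.self w))
  have h1 : ∃ q : ℍ × ℍ, ∃ t, IsArc F.du w q.1 q.2 t := ⟨(zm, zp), t, h⟩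
  unfold Flat.zz
  rw [dif_pos h1]
  exact h1.choose_spec

theorem Flat.Leaf.isArc_Dis {w : ℍ} (hw : F.Leaf w) : ∃ t, IsArc (Dis F p R) (Sum.inl w)
    (Sum.inl (F.zz w).1) (Sum.inl (F.zz w).2) t := by
  obtain ⟨t, h⟩ := hw.isArc_zz
  exact ⟨t, h.pos, by rw [Dis_inl]; exact h.left, by rw [Dis_inl]; exact h.right,
    by rw [Dis_inl]; exact h.sum⟩

theorem Flat.Leaf.two_arms_Dis {w : ℍ} (hw : F.Leaf w) (hs : IsSys S p R) {a b c : ℍ ⊕ Y}
    (ha : 0 < Dis F p R (Sum.inl w) a) (hb : 0 < Dis F p R (Sum.inl w) b)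
    (hc : 0 < Dis F p R (Sum.inl w) c) :
    SameArm (Dis F p R) (Sum.inl w) a b ∨ SameArm (Dis F p R) (Sum.inl w) a c ∨
      SameArm (Dis F p R) (Sum.inl w) b c := by
  have hT : IsTree (Dis F p R) := isTree_Dis F hs
  have key : ∀ {x : ℍ ⊕ Y}, 0 < Dis F p R (Sum.inl w) x → ∃ z : ℍ,
      SameArm (Dis F p R) (Sum.inl w) x (Sum.inl z) ∧ 0 < F.du w z := by
    intro x hx
    obtain ⟨z, hz⟩ := exists_near F hs x hx
    rw [hT.symm] at hz
    have h1 := sameArm_of_lt hT hz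
    have h2 := (SameArm.pos hT h1).2
    rw [Dis_inl] at h2
    exact ⟨z, h1, h2⟩
  have conv : ∀ {z z' : ℍ}, SameArm F.du w z z' →
      SameArm (Dis F p R) (Sum.inl w) (Sum.inl z) (Sum.inl z') := by
    intro z z' h
    unfold SameArm at h ⊢
    rw [Dis_inl, Dis_inl, Dis_inl]
    exact h
  obtain ⟨za, ha1, ha2⟩ := key ha
  obtain ⟨zb, hb1, hb2⟩ := key hb
  obtain ⟨zc, hc1, hc2⟩ := key hc
  rcases Flat.two_arms hw ha2 hb2 hc2 with h | h | h
  · exact Or.inl (SameArm.trans hT (SameArm.trans hT ha1 (conv h)) (SameArm.symm hT hb1))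
  · exact Or.inr (Or.inl
      (SameArm.trans hT (SameArm.trans hT ha1 (conv h)) (SameArm.symm hT hc1)))
  · exact Or.inr (Or.inr
      (SameArm.trans hT (SameArm.trans hT hb1 (conv h)) (SameArm.symm hT hc1)))

theorem Flat.Leaf.twoSided_Dis {w : ℍ} (hw : F.Leaf w) (hs : IsSys S p R) :
    TwoSided (Dis F p R) (Sum.inl w) (Sum.inl (F.zz w).1) (Sum.inl (F.zz w).2) univ := by
  have hT : IsTree (Dis F p R) := isTree_Dis F hs
  obtain ⟨t, h⟩ := hw.isArc_Dis (p := p) (R := R)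
  intro q _ hq
  by_contra hcon
  have hpos : 0 < Dis F p R (Sum.inl w) q := lt_of_le_of_ne (hT.nonneg _ _) (Ne.symm hcon)
  rw [side_eq_zero_iff hT h] at hq
  have h1 : gp (Dis F p R) (Sum.inl w) (Sum.inl (F.zz w).1) (Sum.inl (F.zz w).2) = 0 := by
    unfold gp
    rw [h.left, h.right, h.sum]
    ring
  rcases hw.two_arms_Dis hs (by rw [h.left]; exact h.pos) (by rw [h.right]; exact h.pos) hpos
    with h2 | h2 | h2
  · rw [sameArm_iff_gp, h1] at h2
    exact lt_irrefl _ h2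
  · rw [sameArm_iff_gp, gp_comm hT, hq.2] at h2
    exact lt_irrefl _ h2
  · rw [sameArm_iff_gp, gp_comm hT, hq.1] at h2
    exact lt_irrefl _ h2

theorem abs_sgn {w : ℍ} (hw : F.Leaf w) (hs : IsSys S p R) (a : ℍ ⊕ Y) :
    |sgn F p R w a| = Dis F p R (Sum.inl w) a := by
  exact abs_sdist (isTree_Dis F hs) (hw.twoSided_Dis hs) (mem_univ a)

theorem sgn_eq_zero_iff {w : ℍ} (hw : F.Leaf w) (hs : IsSys S p R) (a : ℍ ⊕ Y) :
    sgn F p R w a = 0 ↔ Dis F p R (Sum.inl w) a = 0 := by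
  rw [← abs_sgn hw hs a, abs_eq_zero]

theorem lipschitz_sgn {w : ℍ} (hw : F.Leaf w) (hs : IsSys S p R) (a b : ℍ ⊕ Y) :
    |sgn F p R w a - sgn F p R w b| ≤ Dis F p R a b := by
  obtain ⟨t, h⟩ := hw.isArc_Dis (p := p) (R := R)
  exact sdist_lipschitz (isTree_Dis F hs) h (hw.twoSided_Dis hs) (mem_univ a) (mem_univ b)

theorem continuous_sgn {w : ℍ} (hw : F.Leaf w) (hs : IsSys S p R) :
    Continuous (sgn F p R w) := by
  rw [continuous_iff_continuousAt]
  intro b
  have h1 : Tendsto (fun a : ℍ ⊕ Y => Dis F p R a b) (𝓝 b) (𝓝 0) := by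
    have h2 : Continuous fun a : ℍ ⊕ Y => Dis F p R a b :=
      (continuous_Dis F hs).comp (continuous_id.prodMk continuous_const)
    have h3 := h2.tendsto b
    rwa [(isTree_Dis F hs).self] at h3
  show Tendsto (sgn F p R w) (𝓝 b) (𝓝 (sgn F p R w b))
  rw [tendsto_iff_dist_tendsto_zero]
  refine squeeze_zero (fun a => dist_nonneg) (fun a => ?_) h1
  rw [Real.dist_eq]
  exact lipschitz_sgn hw hs a b

theorem sgn_inl (w z : ℍ) : sgn F p R w (Sum.inl z) = F.sg w z := by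
  unfold sgn Flat.sg sdist side
  simp only [Dis_inl]

theorem sameArm_iff_sgn {w : ℍ} (hw : F.Leaf w) (hs : IsSys S p R) (a b : ℍ ⊕ Y) :
    SameArm (Dis F p R) (Sum.inl w) a b ↔ 0 < sgn F p R w a * sgn F p R w b := by
  have hT : IsTree (Dis F p R) := isTree_Dis F hs
  obtain ⟨t, h⟩ := hw.isArc_Dis (p := p) (R := R)
  rw [sameArm_iff_gp]
  constructor
  · intro hg
    have h1 := (SameArm.pos hT (sameArm_iff_gp.mpr hg)).1
    have h2 : sgn F p R w a ≠ 0 := fun h3 => h1.ne' ((sgn_eq_zero_iff hw hs a).mp h3)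
    rcases lt_or_gt_of_ne h2 with h3 | h3
    · have h4 := side_neg_of_gp hT h hg ((sdist_neg_iff hT h a).mp h3)
      exact mul_pos_of_neg_of_neg h3 ((sdist_neg_iff hT h b).mpr h4)
    · have h4 := side_pos_of_gp hT h hg ((sdist_pos_iff hT h a).mp h3)
      exact mul_pos h3 ((sdist_pos_iff hT h b).mpr h4)
  · intro hm
    rcases pos_and_pos_or_neg_and_neg_of_mul_pos hm with ⟨h1, h2⟩ | ⟨h1, h2⟩
    · exact gp_pos_of_pos hT h ((sdist_pos_iff hT h a).mp h1) ((sdist_pos_iff hT h b).mp h2)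
    · exact gp_pos_of_neg hT h ((sdist_neg_iff hT h a).mp h1) ((sdist_neg_iff hT h b).mp h2)

theorem sign_pow {w : ℍ} (hw : F.Leaf w) (hs : IsSys S p R) (hG : IsSym S p R G) {m : ℕ}
    {H : ℍ ≃ₜ ℍ} {R' : Y → Y} (h : IsPow S R G m H R') (hHw : H w = w) :
    ∃ ε : SignType, ε ≠ 0 ∧ ∀ a, SignType.sign (sgn F p R w (st H R' a)) =
      ε * SignType.sign (sgn F p R w a) := by
  have hT : IsTree (Dis F p R) := isTree_Dis F hs
  obtain ⟨t, harc⟩ := hw.isArc_Dis (p := p) (R := R)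
  have hzero : ∀ a, sgn F p R w (st H R' a) = 0 ↔ sgn F p R w a = 0 := by
    intro a
    rw [sgn_eq_zero_iff hw hs, sgn_eq_zero_iff hw hs]
    have h1 := Dis_pow_zero F hs hG h (Sum.inl w) a
    have h2 : st H R' (Sum.inl w) = Sum.inl w := by
      show Sum.inl (H w) = Sum.inl w
      rw [hHw]
    rw [h2] at h1
    exact h1
  have harm : ∀ a b, 0 < sgn F p R w (st H R' a) * sgn F p R w (st H R' b) ↔
      0 < sgn F p R w a * sgn F p R w b := by
    intro a b
    have h1 := sameArm_pow F hs hG h w a b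
    rw [hHw, sameArm_iff_sgn hw hs, sameArm_iff_sgn hw hs] at h1
    exact h1
  have hA : 0 < sgn F p R w (Sum.inl (F.zz w).2) := by
    refine (sdist_pos_iff hT harc _).mpr ?_
    unfold side
    rw [harc.sum, hT.self, sub_zero]
    have := harc.pos
    linarith
  have hA' : sgn F p R w (st H R' (Sum.inl (F.zz w).2)) ≠ 0 := fun h1 =>
    hA.ne' ((hzero _).mp h1)
  refine ⟨SignType.sign (sgn F p R w (st H R' (Sum.inl (F.zz w).2))), ?_, fun a => ?_⟩
  · rw [ne_eq, sign_eq_zero_iff]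
    exact hA'
  · have hp := harm (Sum.inl (F.zz w).2) a
    rcases lt_trichotomy (sgn F p R w a) 0 with h1 | h1 | h1
    · have h2 : ¬ 0 < sgn F p R w (Sum.inl (F.zz w).2) * sgn F p R w a := by
        rw [not_lt]
        exact mul_nonpos_of_nonneg_of_nonpos hA.le h1.le
      rw [← hp] at h2
      have h3 : sgn F p R w (st H R' a) ≠ 0 := fun h4 => h1.ne ((hzero a).mp h4)
      rw [sign_neg h1, mul_neg_one]
      rcases lt_or_gt_of_ne hA' with h4 | h4
      · have h5 : 0 < sgn F p R w (st H R' a) := by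
          rcases lt_or_gt_of_ne h3 with h6 | h6
          · exact absurd (mul_pos_of_neg_of_neg h4 h6) h2
          · exact h6
        rw [sign_neg h4, sign_pos h5, neg_neg]
      · have h5 : sgn F p R w (st H R' a) < 0 := by
          rcases lt_or_gt_of_ne h3 with h6 | h6
          · exact h6
          · exact absurd (mul_pos h4 h6) h2
        rw [sign_pos h4, sign_neg h5]
    · rw [h1, (hzero a).mpr h1, sign_zero, mul_zero]
    · have h2 := hp.mpr (mul_pos hA h1)
      rw [sign_pos h1, mul_one]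
      rcases pos_and_pos_or_neg_and_neg_of_mul_pos h2 with ⟨h3, h4⟩ | ⟨h3, h4⟩
      · rw [sign_pos h3, sign_pos h4]
      · rw [sign_neg h3, sign_neg h4]

/-- near a point `z` of the leaf of `w` the signed distance is `± (x - x z)` -/
theorem Flat.Leaf.sg_local {w z : ℍ} (hw : F.Leaf w) (hz : F.du w z = 0)
    {D : OpenPartialHomeomorph ℂ ℂ} (hD : F.IsChart z D) :
    ∃ σ : ℝ, (σ = 1 ∨ σ = -1) ∧ ∀ z' : ℍ, (z' : ℂ) ∈ D.source →
      F.sg w z' = σ * ((D z').re - (D z).re) := by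
  obtain ⟨t, h⟩ := hw.isArc_zz
  exact Flat.sdist_local hw h hz hD

end Pool.Agent.ANO3
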