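import Pool.Agent.ANO3.Sys.Setting
import Pool.Agent.ANO3.Sys.Sgn
import Pool.Agent.ANO3.Sys.Cpt

/-!
# ANO3, module Sys: facts on the product situation (package SYS-FACTS)

All statements are special cases of the theorems of `Sys.Lim`, `Sys.Sym`, `Sys.Sgn`, `Sys.Cpt` for
the systems of `Setting` (`isSys_X`, `isSym_X`, ... and `h.symm`; note
`DS F T i = DU (fun i => (F i).rev) T.symm i` by `rfl`, the same for `ss`, `su`).

`IsLift.isPow`: by definition, `q = (γ i, dk γ v) ∈ GX S k i`.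
`IsLift.symm`: `T'⁻¹ x = T^(-m) (g⁻¹ x)`. By `hom` and `surj` (`homotopic_symm`, `surj_symm`,
iterated `m` times: `Grp.homotopic_iterate`) there is a deck transformation `g' = dk γ' v'` with
`T^(-m) ∘ g⁻¹ = g' ∘ T^(-m)` and `T₀^(-m) ∘ g⁻¹ = g' ∘ T₀^(-m)`; the `i`-th coordinate of the last
equation (`cover`) is `f^(-m) (γ i⁻¹ • z) = γ' i • f^(-m) z`, i.e. `(H i)⁻¹ z = γ' i • f^(-m) z`.
`exists_lift`: choose for each `i` a lift of a power which fixes `w i` (`isPeriodic_iff`) or maps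
`w i` to an equivalent point (`Flat.exists_fixed`); take the powers with the same exponent `m`
(product of the exponents; iterates), `γ i` the corresponding group elements, `v = 0`,
`T' = dk γ 0 ∘ T^m` (a homeomorphism).
`IsLift.pow`: iterates (`IsPow.iterate`, the same computation for `T`: `T' ∘ g = g' ∘ T'`).
`mem_NN_dk`: `Dis_act`. `mem_NN_lift`: `Dis_pow_zero` for `H i`, `T'` (`st (H i) T' (inl w) =
inl (H i w)`), and for `DS` the inverse lift.
`isClosed_NN`: continuity.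
-/

set_option autoImplicit false

open scoped UpperHalfPlane MatrixGroups
open Set Filter Topology

namespace Pool.Agent.ANO3

open Pool.Agent.ANO Pool.Agent.ANO2 Pool.Agent.ANO3.Tree

variable {r k : ℕ} {S : Fin r → SurfaceMap} {F : ∀ i, Flat (S i)} {T₀ T : X r k ≃ₜ X r k}

/-! ### Lifts -/

private theorem pow_apply_Facts {Z : Type*} [TopologicalSpace Z] (T : Z ≃ₜ Z) (n : ℕ) (x : Z) :
    (T ^ n) x = T^[n] x := by
  induction n generalizing x with
  | zero => rfl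
  | succ n ih =>
    rw [pow_succ, Function.iterate_succ_apply, ← ih]
    rfl

private theorem iter_symm_Facts {Z : Type*} [TopologicalSpace Z] (T : Z ≃ₜ Z) (n : ℕ) (x : Z) :
    T^[n] (T.symm^[n] x) = x :=
  Function.LeftInverse.iterate (f := T.symm) (g := T) (fun y => T.apply_symm_apply y) n x

private theorem dk_dk_Facts (γ γ' : Fin r → SL(2, ℝ)) (v v' : Fin k → ℤ) (x : X r k) :
    dk γ v (dk γ' v' x) = dk (fun i => γ i * γ' i) (fun j => v j + v' j) x := by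
  refine Prod.ext (funext fun i => ?_) (funext fun j => ?_)
  · change γ i • γ' i • x.1 i = (γ i * γ' i) • x.1 i
    rw [mul_smul]
  · change x.2 j + (v' j : ℝ) + (v j : ℝ) = x.2 j + ((v j + v' j : ℤ) : ℝ)
    push_cast
    ring

private theorem dk_inv_Facts (γ : Fin r → SL(2, ℝ)) (v : Fin k → ℤ) (x : X r k) :
    dk γ v (dk (fun i => (γ i)⁻¹) (fun j => - v j) x) = x := by
  refine Prod.ext (funext fun i => ?_) (funext fun j => ?_)
  · change γ i • (γ i)⁻¹ • x.1 i = x.1 i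
    rw [smul_inv_smul]
  · change x.2 j + ((- v j : ℤ) : ℝ) + (v j : ℝ) = x.2 j
    push_cast
    ring

private theorem dk_zero_Facts (γ : Fin r → SL(2, ℝ)) (x : X r k) :
    dk γ 0 x = (fun i => γ i • x.1 i, x.2) := by
  refine Prod.ext (funext fun i => rfl) (funext fun j => ?_)
  change x.2 j + (((0 : Fin k → ℤ) j : ℤ) : ℝ) = x.2 j
  simp

private theorem deck_step_Facts {S : Fin r → SurfaceMap} {T₀ T : X r k ≃ₜ X r k}
    (h : Setting S T₀ T) {γ : Fin r → SL(2, ℝ)} (hγ : InΓ S γ) (v : Fin k → ℤ) :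
    ∃ (γ' : Fin r → SL(2, ℝ)) (v' : Fin k → ℤ), InΓ S γ' ∧
      (∀ x, T (dk γ v x) = dk γ' v' (T x)) ∧
      ∀ i (z : ℍ), (S i).f (γ i • z) = γ' i • (S i).f z := by
  obtain ⟨g', hg', h1, h2⟩ := h.hom _ (isDeck_dk hγ v)
  obtain ⟨γ', v', hγ', rfl⟩ := isDeck_iff.1 hg'
  refine ⟨γ', v', hγ', fun x => congrFun h2 x, fun i z => ?_⟩
  have h3 : (T₀ (dk γ v ((fun _ => z, 0) : X r k))).1 i =
      (dk γ' v' (T₀ ((fun _ => z, 0) : X r k))).1 i :=
    congrFun (congrArg Prod.fst (congrFun h1 ((fun _ => z, 0) : X r k))) i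
  rw [h.cover] at h3
  have h4 : (dk γ' v' (T₀ ((fun _ => z, 0) : X r k))).1 i =
      γ' i • (T₀ ((fun _ => z, 0) : X r k)).1 i := rfl
  rw [h4, h.cover] at h3
  exact h3

private theorem deck_iter_Facts {S : Fin r → SurfaceMap} {T₀ T : X r k ≃ₜ X r k}
    (h : Setting S T₀ T) (m : ℕ) {γ : Fin r → SL(2, ℝ)} (hγ : InΓ S γ) (v : Fin k → ℤ) :
    ∃ (γ' : Fin r → SL(2, ℝ)) (v' : Fin k → ℤ), InΓ S γ' ∧
      (∀ x, T^[m] (dk γ v x) = dk γ' v' (T^[m] x)) ∧
      ∀ i (z : ℍ), (S i).f^[m] (γ i • z) = γ' i • (S i).f^[m] z := by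
  induction m generalizing γ v with
  | zero => exact ⟨γ, v, hγ, fun x => rfl, fun i z => rfl⟩
  | succ m ih =>
    obtain ⟨γ₁, v₁, h1, h2, h3⟩ := deck_step_Facts h hγ v
    obtain ⟨γ₂, v₂, h4, h5, h6⟩ := ih h1 v₁
    refine ⟨γ₂, v₂, h4, fun x => ?_, fun i z => ?_⟩
    · rw [Function.iterate_succ_apply, Function.iterate_succ_apply, h2, h5]
    · rw [Function.iterate_succ_apply, Function.iterate_succ_apply, h3, h6]

theorem IsLift.isPow {m : ℕ} {T' : X r k ≃ₜ X r k} {H : Fin r → ℍ ≃ₜ ℍ}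
    (h' : IsLift S T m T' H) (i : Fin r) : IsPow (S i) T (GX S k i) m (H i) T' := by
  obtain ⟨γ, v, hγ, hT, hH⟩ := h'
  exact ⟨(γ i, dk γ v), ⟨γ, v, hγ, rfl⟩, hH i, hT⟩

theorem IsLift.symm (h : Setting S T₀ T) {m : ℕ} {T' : X r k ≃ₜ X r k} {H : Fin r → ℍ ≃ₜ ℍ}
    (h' : IsLift S T m T' H) :
    IsLift (fun i => rev (S i)) T.symm m T'.symm (fun i => (H i).symm) := by
  obtain ⟨γ, v, hγ, hT, hH⟩ := h'
  have hγ' : InΓ (fun i => rev (S i)) (fun i => (γ i)⁻¹) := fun i => (S i).Γ.inv_mem (hγ i)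
  obtain ⟨γ', v', h1, h2, h3⟩ := deck_iter_Facts h.symm m hγ' (fun j => - v j)
  refine ⟨γ', v', h1, fun y => ?_, fun i z => ?_⟩
  · rw [T'.symm_apply_eq, ← h2, hT, iter_symm_Facts, dk_inv_Facts]
  · have h4 : (S i).f.symm^[m] ((γ i)⁻¹ • z) = γ' i • (S i).f.symm^[m] z := h3 i z
    change (H i).symm z = γ' i • (S i).f.symm^[m] z
    rw [(H i).symm_apply_eq, ← h4, hH, iter_symm_Facts, smul_inv_smul]

theorem IsLift.pow (h : Setting S T₀ T) {m : ℕ} {T' : X r k ≃ₜ X r k} {H : Fin r → ℍ ≃ₜ ℍ}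
    (h' : IsLift S T m T' H) (n : ℕ) : IsLift S T (m * n) (T' ^ n) (fun i => H i ^ n) := by
  induction n with
  | zero =>
    refine ⟨fun _ => 1, 0, fun i => (S i).Γ.one_mem, fun x => ?_, fun i z => ?_⟩
    · rw [pow_zero, Nat.mul_zero, dk_zero_Facts]
      refine Prod.ext (funext fun i => ?_) rfl
      change x.1 i = (1 : SL(2, ℝ)) • x.1 i
      rw [one_smul]
    · rw [Nat.mul_zero]
      change (H i ^ 0) z = (1 : SL(2, ℝ)) • z
      rw [pow_zero, one_smul]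
      rfl
  | succ n ih =>
    obtain ⟨γ, v, hγ, hT, hH⟩ := h'
    obtain ⟨γn, vn, hγn, hTn, hHn⟩ := ih
    obtain ⟨γ', v', h1, h2, h3⟩ := deck_iter_Facts h m hγn vn
    have e : m * (n + 1) = m + m * n := by ring
    refine ⟨fun i => γ i * γ' i, fun j => v j + v' j,
      fun i => (S i).Γ.mul_mem (hγ i) (h1 i), fun x => ?_, fun i z => ?_⟩
    · rw [pow_succ', e, Function.iterate_add_apply, ← dk_dk_Facts, ← h2, ← hT, ← hTn]
      rfl
    · have h4 : (H i ^ n) z = γn i • (S i).f^[m * n] z := hHn i z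
      change (H i ^ (n + 1)) z = (γ i * γ' i) • (S i).f^[m * (n + 1)] z
      rw [pow_succ', e, Function.iterate_add_apply, mul_smul, ← h3, ← hH, ← h4]
      rfl

/-- the two families of numbers are of one of the allowed types -/
def IsType (F : ∀ i, Flat (S i)) (w : Fin r → ℍ) : Prop := ∀ i, (F i).Reg (w i) ∨ w i ∉ (F i).U

private theorem one_Facts {S : SurfaceMap} (F : Flat S) {w : ℍ} (hw : F.Reg w ∨ w ∉ F.U) :
    ∃ (m : ℕ) (H : ℍ ≃ₜ ℍ), 0 < m ∧ IsLiftPow S m H ∧ F.Eqv w (H w) ∧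
      (F.Reg w → H w = w) := by
  rcases hw with hw | hw
  · obtain ⟨m, H, hm, hH, hf⟩ := isPeriodic_iff.1 hw.2
    refine ⟨m, H, hm, hH, ?_, fun _ => hf⟩
    rw [hf]
    exact ⟨F.isTree_u.self w, F.isTree_s.self w⟩
  · obtain ⟨m, H, hm, hH, hf⟩ := F.exists_fixed hw
    exact ⟨m, H, hm, hH, hf, fun h => absurd h.1 hw⟩

private theorem eqv_iter_Facts {S : SurfaceMap} (F : Flat S) {m : ℕ} {H : ℍ ≃ₜ ℍ}
    (hH : IsLiftPow S m H) {w : ℍ} (h : F.Eqv w (H w)) (n : ℕ) : F.Eqv w (H^[n] w) := by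
  induction n with
  | zero => exact ⟨F.isTree_u.self w, F.isTree_s.self w⟩
  | succ n ih =>
    rw [Function.iterate_succ_apply']
    have h1 : F.du (H w) (H (H^[n] w)) = 0 := (F.du_lift_zero hH _ _).2 ih.1
    have h2 : F.ds (H w) (H (H^[n] w)) = 0 := (F.ds_lift_zero hH _ _).2 ih.2
    exact ⟨(F.isTree_u.congr_left h.1 _).trans h1, (F.isTree_s.congr_left h.2 _).trans h2⟩

private theorem exists_dk_Facts (γ : Fin r → SL(2, ℝ)) :
    ∃ g : X r k ≃ₜ X r k, ∀ x, g x = dk γ 0 x := by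
  refine ⟨(Homeomorph.piCongrRight (fun i => Homeomorph.smul (γ i))).prodCongr
    (Homeomorph.refl _), fun x => ?_⟩
  rw [dk_zero_Facts]
  rfl

private theorem liftPow_Facts {m : ℕ} {T' : X r k ≃ₜ X r k} {H : Fin r → ℍ ≃ₜ ℍ}
    (h' : IsLift S T m T' H) (i : Fin r) : IsLiftPow (S i) m (H i) := by
  obtain ⟨γ, v, hγ, -, hH⟩ := h'
  exact ⟨γ i, hγ i, hH i⟩

theorem exists_lift (h : Setting S T₀ T) {w : Fin r → ℍ} (hw : IsType F w) :
    ∃ (m : ℕ) (T' : X r k ≃ₜ X r k) (H : Fin r → ℍ ≃ₜ ℍ), 0 < m ∧ IsLift S T m T' H ∧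
      ∀ i, (F i).Eqv (w i) (H i (w i)) ∧ ((F i).Reg (w i) → H i (w i) = w i) := by
  choose m H hm hH he hr using fun i => one_Facts (F i) (hw i)
  have hd : ∀ i, m i ∣ ∏ j, m j := fun i => Finset.dvd_prod_of_mem m (Finset.mem_univ i)
  choose n hn using hd
  choose H' hH' hz using fun i => (hH i).iterate (n i)
  have hH2 : ∀ i, IsLiftPow (S i) (∏ j, m j) (H' i) := fun i => by
    rw [hn i]
    exact hH' i
  choose γ hγ hγz using hH2
  obtain ⟨g, hg⟩ := exists_dk_Facts (k := k) γ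
  refine ⟨∏ j, m j, (T ^ (∏ j, m j)).trans g, H', Finset.prod_pos (fun i _ => hm i),
    ⟨γ, 0, hγ, fun x => ?_, hγz⟩, fun i => ⟨?_, fun hreg => ?_⟩⟩
  · rw [Homeomorph.trans_apply, hg, pow_apply_Facts]
  · rw [hz]
    exact eqv_iter_Facts (F i) (hH i) (he i) (n i)
  · rw [hz]
    exact Function.iterate_fixed (hr i hreg) (n i)

/-- a common exponent for two types -/
theorem exists_lift₂ (h : Setting S T₀ T) {w w' : Fin r → ℍ} (hw : IsType F w)
    (hw' : IsType F w') : ∃ (m : ℕ) (T' T'' : X r k ≃ₜ X r k) (H H' : Fin r → ℍ ≃ₜ ℍ), 0 < m ∧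
      IsLift S T m T' H ∧ IsLift S T m T'' H' ∧
      (∀ i, (F i).Eqv (w i) (H i (w i)) ∧ ((F i).Reg (w i) → H i (w i) = w i)) ∧
      ∀ i, (F i).Eqv (w' i) (H' i (w' i)) ∧ ((F i).Reg (w' i) → H' i (w' i) = w' i) := by
  obtain ⟨m, T₁, H, hm, h1, h2⟩ := exists_lift h hw
  obtain ⟨n, T₂, H', hn, h3, h4⟩ := exists_lift h hw'
  have h5 := h1.pow h n
  have h6 := h3.pow h m
  rw [mul_comm n m] at h6
  refine ⟨m * n, T₁ ^ n, T₂ ^ m, fun i => H i ^ n, fun i => H' i ^ m, Nat.mul_pos hm hn, h5, h6,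
    fun i => ⟨?_, fun hr => ?_⟩, fun i => ⟨?_, fun hr => ?_⟩⟩
  · change (F i).Eqv (w i) ((H i ^ n) (w i))
    rw [pow_apply_Facts]
    exact eqv_iter_Facts (F i) (liftPow_Facts h1 i) (h2 i).1 n
  · change (H i ^ n) (w i) = w i
    rw [pow_apply_Facts]
    exact Function.iterate_fixed ((h2 i).2 hr) n
  · change (F i).Eqv (w' i) ((H' i ^ m) (w' i))
    rw [pow_apply_Facts]
    exact eqv_iter_Facts (F i) (liftPow_Facts h3 i) (h4 i).1 m
  · change (H' i ^ m) (w' i) = w' i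
    rw [pow_apply_Facts]
    exact Function.iterate_fixed ((h4 i).2 hr) m

/-! ### The pseudo-distances -/

theorem isTree_DU (h : Setting S T₀ T) (i : Fin r) : IsTree (DU F T i) :=
  isTree_Dis (F i) (h.isSys_X i)

theorem isTree_DS (h : Setting S T₀ T) (i : Fin r) : IsTree (DS F T i) :=
  isTree_Dis (F i).rev (h.isSys_X' i)

theorem continuous_DU (h : Setting S T₀ T) (i : Fin r) :
    Continuous fun q : (ℍ ⊕ X r k) × (ℍ ⊕ X r k) => DU F T i q.1 q.2 :=
  continuous_Dis (F i) (h.isSys_X i)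

theorem continuous_DS (h : Setting S T₀ T) (i : Fin r) :
    Continuous fun q : (ℍ ⊕ X r k) × (ℍ ⊕ X r k) => DS F T i q.1 q.2 :=
  continuous_Dis (F i).rev (h.isSys_X' i)

theorem DU_inl (i : Fin r) (a b : ℍ) : DU F T i (Sum.inl a) (Sum.inl b) = (F i).du a b :=
  Dis_inl (F i) a b

theorem DS_inl (i : Fin r) (a b : ℍ) : DS F T i (Sum.inl a) (Sum.inl b) = (F i).ds a b :=
  Dis_inl (F i).rev a b

theorem DU_near (h : Setting S T₀ T) (i : Fin r) (a : ℍ ⊕ X r k) {ε : ℝ} (hε : 0 < ε) :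
    ∃ z : ℍ, DU F T i (Sum.inl z) a < ε :=
  exists_near (F i) (h.isSys_X i) a hε

theorem DS_near (h : Setting S T₀ T) (i : Fin r) (a : ℍ ⊕ X r k) {ε : ℝ} (hε : 0 < ε) :
    ∃ z : ℍ, DS F T i (Sum.inl z) a < ε :=
  exists_near (F i).rev (h.isSys_X' i) a hε

theorem DU_dk (h : Setting S T₀ T) {γ : Fin r → SL(2, ℝ)} (hγ : InΓ S γ) (v : Fin k → ℤ)
    (i : Fin r) (a b : ℍ ⊕ X r k) :
    DU F T i (act (γ i, dk γ v) a) (act (γ i, dk γ v) b) = DU F T i a b :=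
  Dis_act (F i) (h.isSym_X i) (g := (γ i, dk γ v)) ⟨γ, v, hγ, rfl⟩ a b

theorem DS_dk (h : Setting S T₀ T) {γ : Fin r → SL(2, ℝ)} (hγ : InΓ S γ) (v : Fin k → ℤ)
    (i : Fin r) (a b : ℍ ⊕ X r k) :
    DS F T i (act (γ i, dk γ v) a) (act (γ i, dk γ v) b) = DS F T i a b :=
  Dis_act (F i).rev (h.isSym_X' i) (g := (γ i, dk γ v)) ⟨γ, v, hγ, rfl⟩ a b

theorem DU_lift (h : Setting S T₀ T) {m : ℕ} {T' : X r k ≃ₜ X r k} {H : Fin r → ℍ ≃ₜ ℍ}
    (h' : IsLift S T m T' H) (i : Fin r) (a b : ℍ ⊕ X r k) :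
    (F i).l ^ m * DU F T i a b ≤ DU F T i (st (H i) T' a) (st (H i) T' b) ∧
      DU F T i (st (H i) T' a) (st (H i) T' b) ≤ (F i).L ^ m * DU F T i a b :=
  Dis_pow (F i) (h.isSys_X i) (h.isSym_X i) (h'.isPow i) a b

private theorem st_symm_Facts (H : ℍ ≃ₜ ℍ) (T' : X r k ≃ₜ X r k) (a : ℍ ⊕ X r k) :
    st H.symm T'.symm (st H T' a) = a := by
  rcases a with z | x
  · exact congrArg Sum.inl (H.symm_apply_apply z)
  · exact congrArg Sum.inr (T'.symm_apply_apply x)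

theorem DS_lift (h : Setting S T₀ T) {m : ℕ} {T' : X r k ≃ₜ X r k} {H : Fin r → ℍ ≃ₜ ℍ}
    (h' : IsLift S T m T' H) (i : Fin r) (a b : ℍ ⊕ X r k) :
    (F i).l ^ m * DS F T i (st (H i) T' a) (st (H i) T' b) ≤ DS F T i a b ∧
      DS F T i a b ≤ (F i).L ^ m * DS F T i (st (H i) T' a) (st (H i) T' b) := by
  have h1 := Dis_pow (F i).rev (h.symm.isSys_X i) (h.symm.isSym_X i) ((h'.symm h).isPow i)
    (st (H i) T' a) (st (H i) T' b)
  rw [st_symm_Facts, st_symm_Facts] at h1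
  exact h1

/-! ### The signed distances -/

theorem abs_su (h : Setting S T₀ T) {i : Fin r} {w : ℍ} (hw : (F i).Reg w) (x : X r k) :
    |su F T i w x| = DU F T i (Sum.inl w) (Sum.inr x) :=
  abs_sgn hw.leaf (h.isSys_X i) (Sum.inr x)

theorem abs_ss (h : Setting S T₀ T) {i : Fin r} {w : ℍ} (hw : (F i).Reg w) (x : X r k) :
    |ss F T i w x| = DS F T i (Sum.inl w) (Sum.inr x) :=
  abs_sgn (Flat.reg_rev.2 hw).leaf (h.isSys_X' i) (Sum.inr x)

theorem continuous_su (h : Setting S T₀ T) {i : Fin r} {w : ℍ} (hw : (F i).Reg w) :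
    Continuous (su F T i w) :=
  (continuous_sgn hw.leaf (h.isSys_X i)).comp continuous_inr

theorem continuous_ss (h : Setting S T₀ T) {i : Fin r} {w : ℍ} (hw : (F i).Reg w) :
    Continuous (ss F T i w) :=
  (continuous_sgn (Flat.reg_rev.2 hw).leaf (h.isSys_X' i)).comp continuous_inr

theorem continuous_suI (h : Setting S T₀ T) {i : Fin r} {w : ℍ} (hw : (F i).Reg w) :
    Continuous (suI F T₀ T i w) :=
  (continuous_sgn hw.leaf (h.isSys_I i)).comp continuous_inr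

theorem continuous_ssI (h : Setting S T₀ T) {i : Fin r} {w : ℍ} (hw : (F i).Reg w) :
    Continuous (ssI F T₀ T i w) :=
  (continuous_sgn (Flat.reg_rev.2 hw).leaf (h.isSys_I' i)).comp continuous_inr

theorem sameArm_iff_su (h : Setting S T₀ T) {i : Fin r} {w : ℍ} (hw : (F i).Reg w)
    (x y : X r k) : SameArm (DU F T i) (Sum.inl w) (Sum.inr x) (Sum.inr y) ↔
      0 < su F T i w x * su F T i w y :=
  sameArm_iff_sgn hw.leaf (h.isSys_X i) (Sum.inr x) (Sum.inr y)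

private theorem sign_Facts {a b : ℝ} (h : SignType.sign a = SignType.sign b) :
    ∃ c > 0, a = c * b := by
  rcases lt_trichotomy b 0 with hb | hb | hb
  · rw [sign_neg hb] at h
    exact ⟨a / b, div_pos_of_neg_of_neg (sign_eq_neg_one_iff.1 h) hb,
      (div_mul_cancel₀ a hb.ne).symm⟩
  · subst hb
    rw [sign_zero] at h
    exact ⟨1, one_pos, by rw [sign_eq_zero_iff.1 h, mul_zero]⟩
  · rw [sign_pos hb] at h
    exact ⟨a / b, div_pos (sign_eq_one_iff.1 h) hb, (div_mul_cancel₀ a hb.ne').symm⟩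

private theorem sign_mul_Facts {ε : SignType} (hε : ε ≠ 0) : ∃ σ : ℝ, (σ = 1 ∨ σ = -1) ∧
    ∀ a b : ℝ, SignType.sign a = ε * SignType.sign b → ∃ c > 0, a = c * (σ * b) := by
  cases ε with
  | zero => exact absurd rfl hε
  | pos =>
    refine ⟨1, Or.inl rfl, fun a b h => sign_Facts ?_⟩
    rw [h, one_mul]
    exact one_mul _
  | neg =>
    refine ⟨-1, Or.inr rfl, fun a b h => sign_Facts ?_⟩
    rw [h, neg_one_mul, Left.sign_neg]
    exact neg_one_mul _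

/-- the sign of the signed distance of a fixed point `w` under a lift -/
theorem sign_su (h : Setting S T₀ T) {m : ℕ} {T' : X r k ≃ₜ X r k} {H : Fin r → ℍ ≃ₜ ℍ}
    (h' : IsLift S T m T' H) {i : Fin r} {w : ℍ} (hw : (F i).Reg w) (hHw : H i w = w) :
    ∃ σ : ℝ, (σ = 1 ∨ σ = -1) ∧ ∀ x, ∃ c > 0, su F T i w (T' x) = c * (σ * su F T i w x) := by
  obtain ⟨ε, hε, h1⟩ := sign_pow hw.leaf (h.isSys_X i) (h.isSym_X i) (h'.isPow i) hHw
  obtain ⟨σ, hσ, h2⟩ := sign_mul_Facts hε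
  exact ⟨σ, hσ, fun x => h2 _ _ (h1 (Sum.inr x))⟩

theorem sign_ss (h : Setting S T₀ T) {m : ℕ} {T' : X r k ≃ₜ X r k} {H : Fin r → ℍ ≃ₜ ℍ}
    (h' : IsLift S T m T' H) {i : Fin r} {w : ℍ} (hw : (F i).Reg w) (hHw : H i w = w) :
    ∃ σ : ℝ, (σ = 1 ∨ σ = -1) ∧ ∀ x, ∃ c > 0, ss F T i w (T' x) = c * (σ * ss F T i w x) := by
  have hHw' : (H i).symm w = w := by
    rw [(H i).symm_apply_eq, hHw]
  obtain ⟨ε, hε, h1⟩ := sign_pow (F := (F i).rev) (w := w) (Flat.reg_rev.2 hw).leaf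
    (h.symm.isSys_X i) (h.symm.isSym_X i) ((h'.symm h).isPow i) hHw'
  obtain ⟨σ, hσ, h2⟩ := sign_mul_Facts hε
  refine ⟨σ, hσ, fun x => h2 _ _ ?_⟩
  have h3 := h1 (st (H i) T' (Sum.inr x))
  rw [st_symm_Facts] at h3
  change SignType.sign (sgn (F i).rev (pX i) T.symm w (st (H i) T' (Sum.inr x))) =
    ε * SignType.sign (sgn (F i).rev (pX i) T.symm w (Sum.inr x))
  rw [h3]
  cases ε with
  | zero => exact absurd rfl hε
  | pos => rfl
  | neg =>
    generalize SignType.sign (sgn (F i).rev (pX i) T.symm w (st (H i) T' (Sum.inr x))) = s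
    cases s <;> rfl

/-! ### The sets `NN` -/

theorem isClosed_NN (h : Setting S T₀ T) (w' w'' : Fin r → ℍ) : IsClosed (NN F T w' w'') := by
  have e : NN F T w' w'' = ⋂ i, ({x | DU F T i (Sum.inl (w' i)) (Sum.inr x) = 0} ∩
      {x | DS F T i (Sum.inl (w'' i)) (Sum.inr x) = 0}) := by
    ext x
    rw [mem_iInter]
    exact Iff.rfl
  rw [e]
  refine isClosed_iInter fun i => IsClosed.inter ?_ ?_
  · exact isClosed_eq ((continuous_DU h i).comp (continuous_const.prodMk continuous_inr))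
      continuous_const
  · exact isClosed_eq ((continuous_DS h i).comp (continuous_const.prodMk continuous_inr))
      continuous_const

theorem mem_NN_dk (h : Setting S T₀ T) {γ : Fin r → SL(2, ℝ)} (hγ : InΓ S γ) (v : Fin k → ℤ)
    (w' w'' : Fin r → ℍ) (x : X r k) :
    dk γ v x ∈ NN F T (fun i => γ i • w' i) (fun i => γ i • w'' i) ↔ x ∈ NN F T w' w'' := by
  refine forall_congr' fun i => ?_
  have h1 := DU_dk (F := F) h hγ v i (Sum.inl (w' i)) (Sum.inr x)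
  have h2 := DS_dk (F := F) h hγ v i (Sum.inl (w'' i)) (Sum.inr x)
  change DU F T i (Sum.inl (γ i • w' i)) (Sum.inr (dk γ v x)) = _ at h1
  change DS F T i (Sum.inl (γ i • w'' i)) (Sum.inr (dk γ v x)) = _ at h2
  rw [h1, h2]

theorem mem_NN_lift (h : Setting S T₀ T) {m : ℕ} {T' : X r k ≃ₜ X r k}
    {H : Fin r → ℍ ≃ₜ ℍ} (h' : IsLift S T m T' H) (w' w'' : Fin r → ℍ) (x : X r k) :
    T' x ∈ NN F T (fun i => H i (w' i)) (fun i => H i (w'' i)) ↔ x ∈ NN F T w' w'' := by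
  refine forall_congr' fun i => and_congr ?_ ?_
  · exact Dis_pow_zero (F i) (h.isSys_X i) (h.isSym_X i) (h'.isPow i) (Sum.inl (w' i))
      (Sum.inr x)
  · have h1 := Dis_pow_zero (F i).rev (h.symm.isSys_X i) (h.symm.isSym_X i)
      ((h'.symm h).isPow i) (st (H i) T' (Sum.inl (w'' i))) (st (H i) T' (Sum.inr x))
    rw [st_symm_Facts, st_symm_Facts] at h1
    exact h1.symm

/-- equivalent points have the same sets `NN` -/
theorem NN_congr (h : Setting S T₀ T) {v v' w w' : Fin r → ℍ}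
    (hv : ∀ i, (F i).du (v i) (v' i) = 0) (hw : ∀ i, (F i).ds (w i) (w' i) = 0) :
    NN F T v w = NN F T v' w' := by
  ext x
  refine forall_congr' fun i => ?_
  have h1 : DU F T i (Sum.inl (v i)) (Sum.inl (v' i)) = 0 := by
    rw [DU_inl]
    exact hv i
  have h2 : DS F T i (Sum.inl (w i)) (Sum.inl (w' i)) = 0 := by
    rw [DS_inl]
    exact hw i
  rw [(isTree_DU h i).congr_left h1, (isTree_DS h i).congr_left h2]

end Pool.Agent.ANO3
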