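import Pool.Agent.ANO3.Surf.Rev
import Pool.Agent.ANO3.Grp.Basic

/-!
# ANO3, module Sys: equivariant interpolation (package SYS-INTERP)

`exists_hyp`: for `z = x + i y`, `w = x' + i y'` in `ℍ` and `t ∈ [0, 1]` let
`A = (1-t) |z|² / y + t |w|² / y'`, `B = (1-t) x / y + t x' / y'`, `C = (1-t) / y + t / y'`. Then
`A C - B² > 0` (`A C - B² = 1` for `t = 0, 1`; in general
`A C - B² = (1-t)² + t² + t (1-t) (|z|² + |w|² - 2 x x') / (y y')` and `|z|² + |w|² - 2 x x' =
(x - x')² + y² + y'² > 0`), so `u = (B + i √(A C - B²)) / C` is in `ℍ`; it is the unique point of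
`ℍ` with `(1-t) (u - z) (u - z̄) / y + t (u - w) (u - w̄) / y' = 0` (that is
`C u² - 2 B u + A = 0`). `hyp t z w := u`. Equivariance: for `γ = (a b; c d)`
`γ u - γ z = (u - z) / ((c u + d) (c z + d))` and `Im (γ z) = y / |c z + d|²`, so
`(γ u - γ z) (γ u - conj (γ z)) / Im (γ z) = (u - z) (u - z̄) / y / (c u + d)²`, the same for `w`:
the
equation for `γ z`, `γ w` holds at `γ u`. Continuity: explicit formula.

`interp G₀ G t x`: `hyp t` in the coordinates in `ℍ`, `(1-t) a + t b` in the coordinates in `ℝ`.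
`interp_comp`: if `G₀ ∘ g = g' ∘ G₀` and `G ∘ g = g' ∘ G`, `g'` a deck transformation, then
`interp t ∘ g = g' ∘ interp t` (`(1-t) (a + v) + t (b + v) = (1-t) a + t b + v`).
`bdd_interp`: the function `dist ((interp t x).1 i) ((G₀ x).1 i)` is continuous on
`[0, 1] × X` and invariant under the deck transformations, hence bounded (cocompactness; see
`Pool.Agent.ANO3.Grp` or `Pool.Agent.ANO2.Dyn.Deck` for a compact set of representatives).
`homotopic_symm`: if `Homotopic S G₀ G` for homeomorphisms and every deck transformation `g` is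
`G g' G⁻¹` for some deck transformation `g'` (`Surj`) then `Homotopic S G₀⁻¹ G⁻¹`: for `g` choose
`g'` with `G ∘ g' = g ∘ G`; by `hom` there is `g''` with `G₀ ∘ g' = g'' ∘ G₀`,
`G ∘ g' = g'' ∘ G`, so `g'' = g`, and `G₀⁻¹ ∘ g = g' ∘ G₀⁻¹`, `G⁻¹ ∘ g = g' ∘ G⁻¹`.
-/

set_option autoImplicit false

open scoped UpperHalfPlane MatrixGroups
open Set Filter Topology

namespace Pool.Agent.ANO3

open Pool.Agent.ANO Pool.Agent.ANO2 Pool.Agent.ANO3.Tree

private noncomputable def cA_Interp (t : ℝ) (z w : ℍ) : ℝ :=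
  (1 - t) * (z.re ^ 2 + z.im ^ 2) / z.im + t * (w.re ^ 2 + w.im ^ 2) / w.im

private noncomputable def cB_Interp (t : ℝ) (z w : ℍ) : ℝ :=
  (1 - t) * z.re / z.im + t * w.re / w.im

private noncomputable def cC_Interp (t : ℝ) (z w : ℍ) : ℝ := (1 - t) / z.im + t / w.im

private theorem cC_pos_Interp {t : ℝ} (h0 : 0 ≤ t) (h1 : t ≤ 1) (z w : ℍ) :
    0 < cC_Interp t z w := by
  have hz := z.im_pos
  have hw := w.im_pos
  unfold cC_Interp
  rcases h0.eq_or_lt with h | h
  · rw [← h, sub_zero, zero_div, add_zero]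
    positivity
  · have h2 : 0 ≤ (1 - t) / z.im := div_nonneg (by linarith) hz.le
    have h3 : 0 < t / w.im := by positivity
    linarith

private theorem disc_pos_Interp {t : ℝ} (h0 : 0 ≤ t) (h1 : t ≤ 1) (z w : ℍ) :
    0 < cA_Interp t z w * cC_Interp t z w - cB_Interp t z w ^ 2 := by
  have hz := z.im_pos
  have hw := w.im_pos
  have e : cA_Interp t z w * cC_Interp t z w - cB_Interp t z w ^ 2 =
      (1 - t) ^ 2 + t ^ 2 + (1 - t) / z.im * (t / w.im) *
        ((z.re - w.re) ^ 2 + z.im ^ 2 + w.im ^ 2) := by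
    unfold cA_Interp cB_Interp cC_Interp
    field_simp
    ring
  rw [e]
  have h2 : 0 ≤ (1 - t) / z.im * (t / w.im) * ((z.re - w.re) ^ 2 + z.im ^ 2 + w.im ^ 2) := by
    have h3 : 0 ≤ 1 - t := by linarith
    positivity
  have h4 : 0 < (1 - t) ^ 2 + t ^ 2 := by
    nlinarith [sq_nonneg (1 - 2 * t)]
  linarith

private noncomputable def pt_Interp (t : unitInterval) (z w : ℍ) : ℍ :=
  UpperHalfPlane.mk (⟨cB_Interp t z w / cC_Interp t z w,
    √(cA_Interp t z w * cC_Interp t z w - cB_Interp t z w ^ 2) / cC_Interp t z w⟩ : ℂ)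
    (div_pos (Real.sqrt_pos.2 (disc_pos_Interp t.2.1 t.2.2 z w)) (cC_pos_Interp t.2.1 t.2.2 z w))

private theorem coe_pt_Interp (t : unitInterval) (z w : ℍ) : ((pt_Interp t z w : ℍ) : ℂ) =
    (⟨cB_Interp t z w / cC_Interp t z w,
      √(cA_Interp t z w * cC_Interp t z w - cB_Interp t z w ^ 2) / cC_Interp t z w⟩ : ℂ) := rfl

/-- uniqueness of the root in the upper half plane -/
private theorem eq_pt_Interp (t : unitInterval) (z w u : ℍ)
    (h : (cC_Interp t z w : ℂ) * (u : ℂ) ^ 2 - 2 * (cB_Interp t z w : ℂ) * u +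
      (cA_Interp t z w : ℂ) = 0) : u = pt_Interp t z w := by
  have hC := cC_pos_Interp t.2.1 t.2.2 z w
  have hu := u.im_pos
  have hre := congrArg Complex.re h
  have him := congrArg Complex.im h
  simp only [pow_two, Complex.add_re, Complex.sub_re, Complex.mul_re, Complex.ofReal_re,
    Complex.ofReal_im, Complex.mul_im, Complex.re_ofNat, Complex.im_ofNat, zero_mul, sub_zero,
    Complex.zero_re, Complex.add_im, Complex.sub_im, Complex.zero_im, add_zero, mul_zero,
    UpperHalfPlane.coe_re, UpperHalfPlane.coe_im] at hre him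
  have e1 : cC_Interp t z w * u.re = cB_Interp t z w := by
    have h1 : 2 * u.im * (cC_Interp t z w * u.re - cB_Interp t z w) = 0 := by linarith
    rcases mul_eq_zero.1 h1 with h2 | h2
    · linarith
    · linarith
  have e2 : (cC_Interp t z w * u.im) ^ 2 =
      cA_Interp t z w * cC_Interp t z w - cB_Interp t z w ^ 2 := by
    rw [← e1] at hre ⊢
    have h2 : cA_Interp t z w = cC_Interp t z w * (u.re * u.re + u.im * u.im) := by linarith
    rw [h2]
    ring
  have e3 : √(cA_Interp t z w * cC_Interp t z w - cB_Interp t z w ^ 2) =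
      cC_Interp t z w * u.im := by
    rw [← e2]
    exact Real.sqrt_sq (by positivity)
  apply UpperHalfPlane.ext
  rw [coe_pt_Interp, e3]
  apply Complex.ext
  · show (u : ℂ).re = cB_Interp t z w / cC_Interp t z w
    rw [UpperHalfPlane.coe_re, ← e1]
    field_simp
  · show (u : ℂ).im = cC_Interp t z w * u.im / cC_Interp t z w
    rw [UpperHalfPlane.coe_im]
    field_simp

/-- the point is a root -/
private theorem root_pt_Interp (t : unitInterval) (z w : ℍ) :
    (cC_Interp t z w : ℂ) * (pt_Interp t z w : ℂ) ^ 2 -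
      2 * (cB_Interp t z w : ℂ) * (pt_Interp t z w : ℂ) + (cA_Interp t z w : ℂ) = 0 := by
  have hC := cC_pos_Interp t.2.1 t.2.2 z w
  have hD := disc_pos_Interp t.2.1 t.2.2 z w
  have hs := Real.sq_sqrt hD.le
  rw [coe_pt_Interp]
  generalize √(cA_Interp t z w * cC_Interp t z w - cB_Interp t z w ^ 2) = s at hs
  generalize cA_Interp t z w = A at hs
  generalize cB_Interp t z w = B at hs
  generalize cC_Interp t z w = C at hs hC
  have hCn := hC.ne'
  apply Complex.ext
  · simp only [pow_two, Complex.add_re, Complex.sub_re, Complex.mul_re, Complex.ofReal_re,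
      Complex.ofReal_im, Complex.mul_im, Complex.re_ofNat, Complex.im_ofNat, zero_mul, sub_zero,
      Complex.zero_re, add_zero]
    field_simp
    nlinarith
  · simp only [pow_two, Complex.add_im, Complex.sub_im, Complex.mul_re, Complex.ofReal_re,
      Complex.ofReal_im, Complex.mul_im, Complex.re_ofNat, Complex.im_ofNat, zero_mul, sub_zero,
      Complex.zero_im, add_zero]
    field_simp
    ring

private theorem quad_Interp (t : unitInterval) (z w : ℍ) (u : ℂ) :
    (cC_Interp t z w : ℂ) * u ^ 2 - 2 * (cB_Interp t z w : ℂ) * u + (cA_Interp t z w : ℂ) =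
      (1 - (t : ℝ) : ℂ) * ((u - z) * (u - (starRingEnd ℂ) z) / (z.im : ℂ)) +
        ((t : ℝ) : ℂ) * ((u - w) * (u - (starRingEnd ℂ) w) / (w.im : ℂ)) := by
  have hz : (z.im : ℂ) ≠ 0 := Complex.ofReal_ne_zero.2 z.im_ne_zero
  have hw : (w.im : ℂ) ≠ 0 := Complex.ofReal_ne_zero.2 w.im_ne_zero
  have e : ∀ v : ℍ, (u - v) * (u - (starRingEnd ℂ) v) =
      u ^ 2 - 2 * (v.re : ℂ) * u + ((v.re : ℂ) ^ 2 + (v.im : ℂ) ^ 2) := by
    intro v
    have h1 : (v : ℂ) = (v.re : ℂ) + (v.im : ℂ) * Complex.I := by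
      rw [← UpperHalfPlane.coe_re, ← UpperHalfPlane.coe_im, Complex.re_add_im]
    have h2 : (starRingEnd ℂ) (v : ℂ) = (v.re : ℂ) - (v.im : ℂ) * Complex.I := by
      rw [h1, map_add, map_mul, Complex.conj_ofReal, Complex.conj_ofReal, Complex.conj_I]
      ring
    rw [h2, h1]
    linear_combination (-(v.im : ℂ) ^ 2) * Complex.I_sq
  rw [e z, e w]
  unfold cA_Interp cB_Interp cC_Interp
  push_cast
  field_simp
  ring

private noncomputable def den_Interp (γ : SL(2, ℝ)) (z : ℍ) : ℂ :=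
  ((γ 1 0 : ℝ) : ℂ) * (z : ℂ) + ((γ 1 1 : ℝ) : ℂ)

private theorem den_ne_Interp (γ : SL(2, ℝ)) (z : ℍ) : den_Interp γ z ≠ 0 := by
  intro h
  have h1 := congrArg Complex.im h
  have h2 := congrArg Complex.re h
  simp [den_Interp] at h1 h2
  have h3 := γ.det_coe
  rw [Matrix.det_fin_two] at h3
  rcases h1 with h1 | h1
  · rw [h1] at h2 h3
    simp at h2
    rw [h2] at h3
    simp at h3
  · exact z.im_ne_zero h1

private theorem key_Interp (γ : SL(2, ℝ)) (u z : ℍ) :
    (((γ • u : ℍ) : ℂ) - ((γ • z : ℍ) : ℂ)) *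
      (((γ • u : ℍ) : ℂ) - (starRingEnd ℂ) ((γ • z : ℍ) : ℂ)) / ((γ • z : ℍ).im : ℂ) =
      (((u : ℂ) - z) * ((u : ℂ) - (starRingEnd ℂ) (z : ℂ)) / (z.im : ℂ)) /
        den_Interp γ u ^ 2 := by
  have hu := den_ne_Interp γ u
  have hz := den_ne_Interp γ z
  have hzc : (starRingEnd ℂ) (den_Interp γ z) ≠ 0 := by
    intro h
    exact hz ((map_eq_zero (starRingEnd ℂ)).1 h)
  have hdet : ((γ 0 0 : ℝ) : ℂ) * ((γ 1 1 : ℝ) : ℂ) - ((γ 0 1 : ℝ) : ℂ) * ((γ 1 0 : ℝ) : ℂ) = 1 := by
    have h3 := γ.det_coe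
    rw [Matrix.det_fin_two] at h3
    exact_mod_cast h3
  have cu : ((γ • u : ℍ) : ℂ) =
      (((γ 0 0 : ℝ) : ℂ) * (u : ℂ) + ((γ 0 1 : ℝ) : ℂ)) / den_Interp γ u := by
    rw [UpperHalfPlane.coe_specialLinearGroup_apply]
    rfl
  have cz : ((γ • z : ℍ) : ℂ) =
      (((γ 0 0 : ℝ) : ℂ) * (z : ℂ) + ((γ 0 1 : ℝ) : ℂ)) / den_Interp γ z := by
    rw [UpperHalfPlane.coe_specialLinearGroup_apply]
    rfl
  have czc : (starRingEnd ℂ) ((γ • z : ℍ) : ℂ) =
      (((γ 0 0 : ℝ) : ℂ) * (starRingEnd ℂ) (z : ℂ) + ((γ 0 1 : ℝ) : ℂ)) /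
        (starRingEnd ℂ) (den_Interp γ z) := by
    rw [cz, map_div₀, map_add, map_mul, Complex.conj_ofReal, Complex.conj_ofReal]
  have dc : (starRingEnd ℂ) (den_Interp γ z) =
      ((γ 1 0 : ℝ) : ℂ) * (starRingEnd ℂ) (z : ℂ) + ((γ 1 1 : ℝ) : ℂ) := by
    rw [den_Interp, map_add, map_mul, Complex.conj_ofReal, Complex.conj_ofReal]
  have him : ∀ v : ℍ, (v : ℂ) - (starRingEnd ℂ) (v : ℂ) = 2 * (v.im : ℂ) * Complex.I := by
    intro v
    rw [Complex.sub_conj, UpperHalfPlane.coe_im]
    push_cast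
    ring
  have h1 : ((γ • u : ℍ) : ℂ) - ((γ • z : ℍ) : ℂ) =
      ((u : ℂ) - z) / (den_Interp γ u * den_Interp γ z) := by
    rw [cu, cz, div_sub_div _ _ hu hz]
    congr 1
    unfold den_Interp
    linear_combination ((u : ℂ) - z) * hdet
  have h2 : ((γ • u : ℍ) : ℂ) - (starRingEnd ℂ) ((γ • z : ℍ) : ℂ) =
      ((u : ℂ) - (starRingEnd ℂ) (z : ℂ)) /
        (den_Interp γ u * (starRingEnd ℂ) (den_Interp γ z)) := by
    rw [cu, czc, div_sub_div _ _ hu hzc]
    congr 1
    rw [dc]
    unfold den_Interp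
    linear_combination ((u : ℂ) - (starRingEnd ℂ) (z : ℂ)) * hdet
  have h3 : ((γ • z : ℍ) : ℂ) - (starRingEnd ℂ) ((γ • z : ℍ) : ℂ) =
      ((z : ℂ) - (starRingEnd ℂ) (z : ℂ)) /
        (den_Interp γ z * (starRingEnd ℂ) (den_Interp γ z)) := by
    rw [cz] at czc ⊢
    rw [czc, div_sub_div _ _ hz hzc]
    congr 1
    rw [dc]
    unfold den_Interp
    linear_combination ((z : ℂ) - (starRingEnd ℂ) (z : ℂ)) * hdet
  have h4 : ((γ • z : ℍ).im : ℂ) =
      (z.im : ℂ) / (den_Interp γ z * (starRingEnd ℂ) (den_Interp γ z)) := by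
    rw [him, him] at h3
    have h5 : (2 * Complex.I : ℂ) ≠ 0 := by simp
    apply mul_left_cancel₀ h5
    calc 2 * Complex.I * ((γ • z : ℍ).im : ℂ) = 2 * ((γ • z : ℍ).im : ℂ) * Complex.I := by ring
      _ = 2 * (z.im : ℂ) * Complex.I /
          (den_Interp γ z * (starRingEnd ℂ) (den_Interp γ z)) := h3
      _ = _ := by ring
  have hzi : (z.im : ℂ) ≠ 0 := Complex.ofReal_ne_zero.2 z.im_ne_zero
  rw [h1, h2, h4]
  field_simp

theorem exists_hyp : ∃ I : unitInterval → ℍ → ℍ → ℍ,
    Continuous (fun q : unitInterval × ℍ × ℍ => I q.1 q.2.1 q.2.2) ∧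
    (∀ z w, I 0 z w = z) ∧ (∀ z w, I 1 z w = w) ∧
    ∀ (t : unitInterval) (γ : SL(2, ℝ)) (z w : ℍ), I t (γ • z) (γ • w) = γ • I t z w := by
  refine ⟨pt_Interp, ?_, ?_, ?_, ?_⟩
  · rw [UpperHalfPlane.isEmbedding_coe.continuous_iff]
    have ht : Continuous fun q : unitInterval × ℍ × ℍ => ((q.1 : unitInterval) : ℝ) :=
      continuous_subtype_val.comp continuous_fst
    have hzr : Continuous fun q : unitInterval × ℍ × ℍ => q.2.1.re :=
      UpperHalfPlane.continuous_re.comp (continuous_fst.comp continuous_snd)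
    have hzi : Continuous fun q : unitInterval × ℍ × ℍ => q.2.1.im :=
      UpperHalfPlane.continuous_im.comp (continuous_fst.comp continuous_snd)
    have hwr : Continuous fun q : unitInterval × ℍ × ℍ => q.2.2.re :=
      UpperHalfPlane.continuous_re.comp (continuous_snd.comp continuous_snd)
    have hwi : Continuous fun q : unitInterval × ℍ × ℍ => q.2.2.im :=
      UpperHalfPlane.continuous_im.comp (continuous_snd.comp continuous_snd)
    have hA : Continuous fun q : unitInterval × ℍ × ℍ => cA_Interp q.1 q.2.1 q.2.2 := by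
      unfold cA_Interp
      exact (((continuous_const.sub ht).mul ((hzr.pow 2).add (hzi.pow 2))).div hzi
        fun q => q.2.1.im_ne_zero).add ((ht.mul ((hwr.pow 2).add (hwi.pow 2))).div hwi
        fun q => q.2.2.im_ne_zero)
    have hB : Continuous fun q : unitInterval × ℍ × ℍ => cB_Interp q.1 q.2.1 q.2.2 := by
      unfold cB_Interp
      exact (((continuous_const.sub ht).mul hzr).div hzi
        fun q => q.2.1.im_ne_zero).add ((ht.mul hwr).div hwi fun q => q.2.2.im_ne_zero)
    have hC : Continuous fun q : unitInterval × ℍ × ℍ => cC_Interp q.1 q.2.1 q.2.2 := by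
      unfold cC_Interp
      exact ((continuous_const.sub ht).div hzi
        fun q => q.2.1.im_ne_zero).add (ht.div hwi fun q => q.2.2.im_ne_zero)
    have hCn : ∀ q : unitInterval × ℍ × ℍ, cC_Interp q.1 q.2.1 q.2.2 ≠ 0 := fun q =>
      (cC_pos_Interp q.1.2.1 q.1.2.2 q.2.1 q.2.2).ne'
    have h1 := hB.div hC hCn
    have h2 := (((hA.mul hC).sub (hB.pow 2)).sqrt).div hC hCn
    have h3 := (Complex.continuous_ofReal.comp h1).add
      ((Complex.continuous_ofReal.comp h2).mul (continuous_const (y := Complex.I)))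
    refine h3.congr fun q => ?_
    simp only [Function.comp_apply]
    rw [coe_pt_Interp, Complex.mk_eq_add_mul_I]
    rfl
  · intro z w
    refine (eq_pt_Interp 0 z w z ?_).symm
    rw [quad_Interp]
    simp
  · intro z w
    refine (eq_pt_Interp 1 z w w ?_).symm
    rw [quad_Interp]
    simp
  · intro t γ z w
    refine (eq_pt_Interp t (γ • z) (γ • w) (γ • pt_Interp t z w) ?_).symm
    have h1 := root_pt_Interp t z w
    rw [quad_Interp] at h1 ⊢
    rw [key_Interp, key_Interp]
    linear_combination (den_Interp γ (pt_Interp t z w) ^ 2)⁻¹ * h1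

/-- Equivariant interpolation of two points of `ℍ`. -/
noncomputable def hyp : unitInterval → ℍ → ℍ → ℍ := exists_hyp.choose

variable {r k : ℕ}

/-- Equivariant interpolation of two maps. -/
noncomputable def interp (G₀ G : X r k → X r k) (t : unitInterval) (x : X r k) : X r k :=
  (fun i => hyp t ((G₀ x).1 i) ((G x).1 i),
    fun j => (1 - (t : ℝ)) * (G₀ x).2 j + (t : ℝ) * (G x).2 j)

private theorem hyp_cont_Interp :
    Continuous (fun q : unitInterval × ℍ × ℍ => hyp q.1 q.2.1 q.2.2) :=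
  exists_hyp.choose_spec.1

private theorem hyp_zero_Interp (z w : ℍ) : hyp 0 z w = z := exists_hyp.choose_spec.2.1 z w

private theorem hyp_one_Interp (z w : ℍ) : hyp 1 z w = w := exists_hyp.choose_spec.2.2.1 z w

private theorem hyp_smul_Interp (t : unitInterval) (γ : SL(2, ℝ)) (z w : ℍ) :
    hyp t (γ • z) (γ • w) = γ • hyp t z w := exists_hyp.choose_spec.2.2.2 t γ z w

theorem interp_zero (G₀ G : X r k → X r k) (x : X r k) : interp G₀ G 0 x = G₀ x := by
  unfold interp
  refine Prod.ext (funext fun i => ?_) (funext fun j => ?_)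
  · exact hyp_zero_Interp _ _
  · simp

theorem interp_one (G₀ G : X r k → X r k) (x : X r k) : interp G₀ G 1 x = G x := by
  unfold interp
  refine Prod.ext (funext fun i => ?_) (funext fun j => ?_)
  · exact hyp_one_Interp _ _
  · simp

theorem continuous_interp {G₀ G : X r k → X r k} (h₀ : Continuous G₀) (h : Continuous G) :
    Continuous fun q : unitInterval × X r k => interp G₀ G q.1 q.2 := by
  unfold interp
  have h1 : Continuous fun q : unitInterval × X r k => G₀ q.2 := h₀.comp continuous_snd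
  have h2 : Continuous fun q : unitInterval × X r k => G q.2 := h.comp continuous_snd
  have ht : Continuous fun q : unitInterval × X r k => ((q.1 : unitInterval) : ℝ) :=
    continuous_subtype_val.comp continuous_fst
  refine Continuous.prodMk ?_ ?_
  · refine continuous_pi fun i => ?_
    exact hyp_cont_Interp.comp (continuous_fst.prodMk
      (((continuous_apply i).comp (continuous_fst.comp h1)).prodMk
        ((continuous_apply i).comp (continuous_fst.comp h2))))
  · refine continuous_pi fun j => ?_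
    exact ((continuous_const.sub ht).mul ((continuous_apply j).comp (continuous_snd.comp h1))).add
      (ht.mul ((continuous_apply j).comp (continuous_snd.comp h2)))

theorem interp_comp {S : Fin r → ClosedSurface} {G₀ G : X r k → X r k} {g g' : X r k → X r k}
    (hg' : IsDeck S k g') (h₀ : G₀ ∘ g = g' ∘ G₀) (h : G ∘ g = g' ∘ G) (t : unitInterval)
    (x : X r k) : interp G₀ G t (g x) = g' (interp G₀ G t x) := by
  obtain ⟨γ, v, -, hgv⟩ := hg'
  have e1 : G₀ (g x) = g' (G₀ x) := congrFun h₀ x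
  have e2 : G (g x) = g' (G x) := congrFun h x
  unfold interp
  rw [e1, e2, hgv, hgv, hgv]
  refine Prod.ext (funext fun i => ?_) (funext fun j => ?_)
  · exact hyp_smul_Interp _ _ _ _
  · show (1 - (t : ℝ)) * ((G₀ x).2 j + v j) + (t : ℝ) * ((G x).2 j + v j) =
      (1 - (t : ℝ)) * (G₀ x).2 j + (t : ℝ) * (G x).2 j + v j
    ring

theorem bdd_interp {S : Fin r → ClosedSurface} {G₀ G : X r k → X r k} (h₀ : Continuous G₀)
    (h : Continuous G) (hom : Homotopic S G₀ G) : ∃ C : ℝ, ∀ (t : unitInterval) (x : X r k)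
      (i : Fin r), dist ((interp G₀ G t x).1 i) ((G₀ x).1 i) ≤ C := by
  obtain ⟨K, hK, hKg⟩ := ANO2.Idx.deck_cocompact S k
  have hc : Continuous fun q : unitInterval × X r k =>
      dist (interp G₀ G q.1 q.2).1 (G₀ q.2).1 :=
    (continuous_fst.comp (continuous_interp h₀ h)).dist
      (continuous_fst.comp (h₀.comp continuous_snd))
  obtain ⟨C, hC⟩ := ((isCompact_univ (X := unitInterval)).prod hK).exists_bound_of_continuousOn
    hc.continuousOn
  refine ⟨C, fun t x i => ?_⟩
  obtain ⟨g, hg, hgx⟩ := hKg x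
  obtain ⟨g', hg', e₀, e⟩ := hom g hg
  have h1 := hC (t, g x) ⟨mem_univ _, hgx⟩
  rw [Real.norm_of_nonneg dist_nonneg] at h1
  have h2 := (dist_le_pi_dist (interp G₀ G t (g x)).1 (G₀ (g x)).1 i).trans h1
  have e1 : G₀ (g x) = g' (G₀ x) := congrFun e₀ x
  rw [interp_comp hg' e₀ e, e1] at h2
  obtain ⟨γ, v, -, hgv⟩ := hg'
  rw [hgv, hgv] at h2
  have h3 : dist (γ i • (interp G₀ G t x).1 i) (γ i • (G₀ x).1 i) ≤ C := h2
  rwa [dist_smul] at h3

/-- Every deck transformation is the image of a deck transformation. -/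
def Surj (S : Fin r → ClosedSurface) (G : X r k → X r k) : Prop :=
  ∀ g, IsDeck S k g → ∃ g', IsDeck S k g' ∧ G ∘ g' = g ∘ G

private theorem both_Interp {S : Fin r → ClosedSurface} {G₀ G : X r k ≃ₜ X r k}
    (hom : Homotopic S G₀ G) (hG : Surj S G) {g : X r k → X r k} (hg : IsDeck S k g) :
    ∃ g', IsDeck S k g' ∧ G₀ ∘ g' = g ∘ G₀ ∧ G ∘ g' = g ∘ G := by
  obtain ⟨g', hg', e⟩ := hG g hg
  obtain ⟨g'', -, e₀, e1⟩ := hom g' hg'
  have h1 : g'' = g := by
    funext x
    have h2 := congrFun (e1.symm.trans e) (G.symm x)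
    simpa using h2
  rw [h1] at e₀
  exact ⟨g', hg', e₀, e⟩

private theorem symm_Interp {G : X r k ≃ₜ X r k} {g g' : X r k → X r k}
    (h : G ∘ g' = g ∘ G) : G.symm ∘ g = g' ∘ G.symm := by
  funext x
  have h1 := congrFun h (G.symm x)
  simp only [Function.comp_apply, Homeomorph.apply_symm_apply] at h1
  simp only [Function.comp_apply]
  rw [← h1, Homeomorph.symm_apply_apply]

theorem homotopic_symm {S : Fin r → ClosedSurface} {G₀ G : X r k ≃ₜ X r k}
    (hom : Homotopic S G₀ G) (hG : Surj S G) : Homotopic S G₀.symm G.symm := by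
  intro g hg
  obtain ⟨g', hg', e₀, e⟩ := both_Interp hom hG hg
  exact ⟨g', hg', symm_Interp e₀, symm_Interp e⟩

theorem surj_symm {S : Fin r → ClosedSurface} {G₀ G : X r k ≃ₜ X r k}
    (hom : Homotopic S G₀ G) : Surj S G.symm := by
  intro g hg
  obtain ⟨g', hg', -, e⟩ := hom g hg
  exact ⟨g', hg', symm_Interp e⟩

theorem surj_left {S : Fin r → ClosedSurface} {G₀ G : X r k ≃ₜ X r k}
    (hom : Homotopic S G₀ G) (hG : Surj S G) : Surj S G₀ := by
  intro g hg
  obtain ⟨g', hg', e₀, -⟩ := both_Interp hom hG hg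
  exact ⟨g', hg', e₀⟩

end Pool.Agent.ANO3
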