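import Pool.Agent.ANO3.Sys.Defs
import Pool.Agent.ANO3.Surf.Unif
import Pool.Agent.ANO3.Surf.Lift

/-!
# ANO3, module Sys: the limit pseudo-distance (package SYS-LIM)

Let `C₀` be the constant of `bdd`, `C₁` the one of `Flat.upper` for `C₀`, `C = C₁ / (l - 1)`
(`C₁ ≥ 0`). `du (ap (n+1) a) (ap n a) ≤ C₁ / l^(n+1)`: with `b = (st f R)^[n] a` the points are
`f⁻¹^[n+1] (pr (st b))` and `f⁻¹^[n+1] (f (pr b))`, `dist (pr (st b)) (f (pr b)) ≤ C₀` and
`l^(n+1) du (f⁻¹^[n+1] x) (f⁻¹^[n+1] y) ≤ du x y` (`scale_u`, induction). Sum up: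
`ap_cauchy`. Hence `du (ap n a) (ap n b)` is a Cauchy sequence: `tendsto_Dis`. The rest passes to
the
limit: `isTree_Dis`, `Dis_step` (`ap n (st a) = f (ap (n+1) a)`), `Dis_inl` (`ap n (inl z) = z`),
`Dis_ap_le`: `Dis (inl (ap n a)) a = lim du (ap n a) (ap m a) ≤ C / l^n`,
`abs_Dis_sub_le` (from `n = 0`: `ap 0 a = pr p a`). Continuity: uniform limit of the continuous
functions `du (ap n a) (ap n b)` (`TendstoUniformly.continuous`; the error is at most `2 C / l^n`).
-/

set_option autoImplicit false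

open scoped UpperHalfPlane MatrixGroups
open Set Filter Topology

namespace Pool.Agent.ANO3

open Pool.Agent.ANO Pool.Agent.ANO2 Pool.Agent.ANO3.Tree

variable {S : SurfaceMap} (F : Flat S) {Y : Type*} [TopologicalSpace Y] {p : Y → ℍ} {R : Y → Y}

omit [TopologicalSpace Y] in
private theorem st_inl_Lim (f : ℍ → ℍ) (R : Y → Y) (n : ℕ) (z : ℍ) :
    (st f R)^[n] (Sum.inl z) = Sum.inl (f^[n] z) := by
  induction n with
  | zero => rfl
  | succ n ih =>
    rw [Function.iterate_succ_apply', ih, Function.iterate_succ_apply']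
    rfl

private theorem symm_iter_Lim (f : ℍ ≃ₜ ℍ) (n : ℕ) (z : ℍ) : f.symm^[n] (f^[n] z) = z := by
  induction n with
  | zero => rfl
  | succ n ih =>
    rw [Function.iterate_succ_apply, Function.iterate_succ_apply' f, f.symm_apply_apply, ih]

omit [TopologicalSpace Y] in
theorem ap_inl (n : ℕ) (z : ℍ) : ap S p R n (Sum.inl z) = z := by
  rw [ap, st_inl_Lim]
  exact symm_iter_Lim S.f n z

omit [TopologicalSpace Y] in
theorem ap_zero (a : ℍ ⊕ Y) : ap S p R 0 a = pr p a := rfl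

omit [TopologicalSpace Y] in
theorem ap_st (n : ℕ) (a : ℍ ⊕ Y) : ap S p R n (st S.f R a) = S.f (ap S p R (n + 1) a) := by
  rw [ap, ap, Function.iterate_succ_apply' S.f.symm, S.f.apply_symm_apply,
    Function.iterate_succ_apply (st S.f R)]

theorem continuous_ap (hs : IsSys S p R) (n : ℕ) : Continuous (ap S p R n) := by
  have h1 : Continuous (pr p) := continuous_id.sumElim hs.cont_p
  have h2 : Continuous (st S.f R) := S.f.continuous.sumMap hs.cont_R
  exact (S.f.symm.continuous.iterate n).comp (h1.comp (h2.iterate n))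

private theorem du_nonneg_Lim (a b : ℍ) : 0 ≤ F.du a b := by
  have h1 := F.dual_u.triangle a b a
  rw [F.dual_u.self, F.dual_u.symm b a] at h1
  linarith

private theorem du_symm_iter_Lim (n : ℕ) (x y : ℍ) :
    F.l ^ n * F.du (S.f.symm^[n] x) (S.f.symm^[n] y) ≤ F.du x y := by
  induction n with
  | zero => simp
  | succ n ih =>
    refine le_trans ?_ ih
    rw [Function.iterate_succ_apply', Function.iterate_succ_apply']
    have h1 := (F.scale_u (S.f.symm (S.f.symm^[n] x)) (S.f.symm (S.f.symm^[n] y))).1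
    rw [S.f.apply_symm_apply, S.f.apply_symm_apply] at h1
    have h2 : 0 < F.l ^ n := pow_pos (lt_trans one_pos F.one_lt) n
    rw [pow_succ, mul_assoc]
    exact mul_le_mul_of_nonneg_left h1 h2.le

private theorem pr_st_Lim (hs : IsSys S p R) : ∃ C : ℝ, ∀ a : ℍ ⊕ Y,
    dist (pr p (st S.f R a)) (S.f (pr p a)) ≤ C := by
  obtain ⟨C, hC⟩ := hs.bdd
  refine ⟨max C 0, fun a => ?_⟩
  rcases a with z | y
  · change dist (S.f z) (S.f z) ≤ _
    rw [dist_self]
    exact le_max_right _ _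
  · exact (hC y).trans (le_max_left _ _)

theorem ap_cauchy (hs : IsSys S p R) : ∃ C : ℝ, 0 ≤ C ∧ ∀ (n m : ℕ) (a : ℍ ⊕ Y), n ≤ m →
    F.du (ap S p R n a) (ap S p R m a) ≤ C / F.l ^ n := by
  obtain ⟨C₀, hC₀⟩ := pr_st_Lim (S := S) hs
  obtain ⟨C₁, hC₁⟩ := F.upper C₀
  have hl := F.one_lt
  have hl0 : 0 < F.l := lt_trans one_pos hl
  have hl1 : 0 < F.l - 1 := by linarith
  have hK : 0 ≤ max C₁ 0 := le_max_right _ _
  have hstep : ∀ (m : ℕ) (a : ℍ ⊕ Y), F.du (ap S p R m a) (ap S p R (m + 1) a) ≤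
      max C₁ 0 / F.l ^ (m + 1) := by
    intro m a
    have h0 : 0 < F.l ^ (m + 1) := pow_pos hl0 _
    rw [le_div_iff₀' h0]
    have h1 := (hC₁ _ _ (hC₀ ((st S.f R)^[m] a))).1
    have h2 : ap S p R m a = S.f.symm^[m + 1] (S.f (pr p ((st S.f R)^[m] a))) := by
      rw [Function.iterate_succ_apply, S.f.symm_apply_apply]
      rfl
    have h3 : ap S p R (m + 1) a = S.f.symm^[m + 1] (pr p (st S.f R ((st S.f R)^[m] a))) := by
      rw [ap, Function.iterate_succ_apply' (st S.f R)]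
    rw [h2, h3]
    refine (du_symm_iter_Lim F (m + 1) _ _).trans ?_
    rw [F.dual_u.symm]
    exact h1.trans (le_max_left _ _)
  refine ⟨max C₁ 0 / (F.l - 1), div_nonneg hK hl1.le, fun n m a hnm => ?_⟩
  have key : ∀ j : ℕ, F.du (ap S p R n a) (ap S p R (n + j) a) ≤
      max C₁ 0 / (F.l - 1) * (1 / F.l ^ n - 1 / F.l ^ (n + j)) := by
    intro j
    induction j with
    | zero =>
      rw [Nat.add_zero, sub_self, mul_zero, F.dual_u.self]
    | succ j ih =>
      have h1 := F.dual_u.triangle (ap S p R n a) (ap S p R (n + j) a) (ap S p R (n + (j + 1)) a)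
      have h2 := hstep (n + j) a
      have h3 : max C₁ 0 / F.l ^ (n + j + 1) =
          max C₁ 0 / (F.l - 1) * (1 / F.l ^ (n + j) - 1 / F.l ^ (n + j + 1)) := by
        have h4 : F.l ^ (n + j) ≠ 0 := (pow_pos hl0 _).ne'
        rw [pow_succ]
        field_simp
      rw [h3] at h2
      have h5 : n + (j + 1) = n + j + 1 := rfl
      rw [h5] at h1 ⊢
      nlinarith
  obtain ⟨j, rfl⟩ := Nat.exists_eq_add_of_le hnm
  refine (key j).trans ?_
  rw [div_eq_mul_one_div (max C₁ 0 / (F.l - 1)) (F.l ^ n)]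
  refine mul_le_mul_of_nonneg_left ?_ (div_nonneg hK hl1.le)
  have h6 : 0 < 1 / F.l ^ (n + j) := one_div_pos.2 (pow_pos hl0 _)
  linarith

private theorem tendsto_zero_Lim (C : ℝ) : Tendsto (fun n : ℕ => C / F.l ^ n) atTop (𝓝 0) := by
  have h1 : Tendsto (fun n : ℕ => F.l ^ n) atTop atTop :=
    tendsto_pow_atTop_atTop_of_one_lt F.one_lt
  exact h1.const_div_atTop C

omit [TopologicalSpace Y] in
private theorem diff_Lim {C : ℝ} (h : ∀ (n m : ℕ) (a : ℍ ⊕ Y), n ≤ m →
    F.du (ap S p R n a) (ap S p R m a) ≤ C / F.l ^ n) (n m : ℕ) (hnm : n ≤ m) (a b : ℍ ⊕ Y) :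
    |F.du (ap S p R n a) (ap S p R n b) - F.du (ap S p R m a) (ap S p R m b)| ≤
      2 * C / F.l ^ n := by
  have h1 := h n m a hnm
  have h2 := h n m b hnm
  have h3 := F.dual_u.triangle (ap S p R n a) (ap S p R m a) (ap S p R n b)
  have h4 := F.dual_u.triangle (ap S p R m a) (ap S p R m b) (ap S p R n b)
  have h5 := F.dual_u.triangle (ap S p R m a) (ap S p R n a) (ap S p R m b)
  have h6 := F.dual_u.triangle (ap S p R n a) (ap S p R n b) (ap S p R m b)
  rw [F.dual_u.symm (ap S p R m b) (ap S p R n b)] at h4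
  rw [F.dual_u.symm (ap S p R m a) (ap S p R n a)] at h5
  have h7 : 2 * C / F.l ^ n = C / F.l ^ n + C / F.l ^ n := by ring
  rw [h7, abs_le]
  constructor <;> linarith

theorem tendsto_Dis (hs : IsSys S p R) (a b : ℍ ⊕ Y) :
    Tendsto (fun n => F.du (ap S p R n a) (ap S p R n b)) atTop (𝓝 (Dis F p R a b)) := by
  obtain ⟨C, -, hC⟩ := ap_cauchy F hs
  have h1 : CauchySeq fun n => F.du (ap S p R n a) (ap S p R n b) :=
    cauchySeq_of_le_tendsto_0' (fun n => 2 * C / F.l ^ n)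
      (fun n m hnm => by
        rw [Real.dist_eq]
        exact diff_Lim F hC n m hnm a b) (tendsto_zero_Lim F (2 * C))
  exact h1.tendsto_limUnder

private theorem err_Lim (hs : IsSys S p R) : ∃ C : ℝ, 0 ≤ C ∧ ∀ (n : ℕ) (a b : ℍ ⊕ Y),
    |Dis F p R a b - F.du (ap S p R n a) (ap S p R n b)| ≤ C / F.l ^ n := by
  obtain ⟨C, hC0, hC⟩ := ap_cauchy F hs
  refine ⟨2 * C, by linarith, fun n a b => ?_⟩
  have h1 : Tendsto (fun m => |F.du (ap S p R m a) (ap S p R m b) -
      F.du (ap S p R n a) (ap S p R n b)|) atTop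
      (𝓝 |Dis F p R a b - F.du (ap S p R n a) (ap S p R n b)|) :=
    ((tendsto_Dis F hs a b).sub_const _).abs
  refine le_of_tendsto h1 ?_
  filter_upwards [eventually_ge_atTop n] with m hm
  rw [abs_sub_comm]
  exact diff_Lim F hC n m hm a b

theorem isTree_Dis (hs : IsSys S p R) : IsTree (Dis F p R) := by
  have ht := tendsto_Dis F hs
  constructor
  · intro a
    refine tendsto_nhds_unique (ht a a) ?_
    simp only [F.dual_u.self]
    exact tendsto_const_nhds
  · intro a b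
    refine tendsto_nhds_unique (ht a b) ?_
    simp only [F.dual_u.symm (ap S p R _ a)]
    exact ht b a
  · intro a b c
    exact le_of_tendsto_of_tendsto' (ht a c) ((ht a b).add (ht b c)) fun n =>
      F.dual_u.triangle _ _ _
  · intro a b c e
    exact le_of_tendsto_of_tendsto' ((ht a b).add (ht c e))
      (((ht a c).add (ht b e)).max ((ht a e).add (ht b c))) fun n => F.dual_u.tree _ _ _ _

theorem continuous_Dis (hs : IsSys S p R) :
    Continuous fun q : (ℍ ⊕ Y) × (ℍ ⊕ Y) => Dis F p R q.1 q.2 := by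
  obtain ⟨C, hC0, hC⟩ := err_Lim F hs
  have h1 : TendstoUniformly (fun (n : ℕ) (q : (ℍ ⊕ Y) × (ℍ ⊕ Y)) =>
      F.du (ap S p R n q.1) (ap S p R n q.2)) (fun q => Dis F p R q.1 q.2) atTop := by
    rw [Metric.tendstoUniformly_iff]
    intro ε hε
    filter_upwards [(tendsto_zero_Lim F C).eventually (gt_mem_nhds hε)] with n hn q
    rw [Real.dist_eq]
    exact (hC n q.1 q.2).trans_lt hn
  refine h1.continuous (Frequently.of_forall fun n => ?_)
  exact F.dual_u.cont.comp (((continuous_ap hs n).comp continuous_fst).prodMk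
    ((continuous_ap hs n).comp continuous_snd))

omit [TopologicalSpace Y] in
theorem Dis_inl (a b : ℍ) : Dis F p R (Sum.inl a) (Sum.inl b) = F.du a b := by
  unfold Dis
  simp only [ap_inl]
  exact tendsto_const_nhds.limUnder_eq

theorem Dis_ap_le (hs : IsSys S p R) : ∃ C : ℝ, 0 ≤ C ∧ ∀ (n : ℕ) (a : ℍ ⊕ Y),
    Dis F p R (Sum.inl (ap S p R n a)) a ≤ C / F.l ^ n := by
  obtain ⟨C, hC0, hC⟩ := ap_cauchy F hs
  refine ⟨C, hC0, fun n a => ?_⟩
  refine le_of_tendsto (tendsto_Dis F hs (Sum.inl (ap S p R n a)) a) ?_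
  filter_upwards [eventually_ge_atTop n] with m hm
  rw [ap_inl]
  exact hC n m a hm

theorem abs_Dis_sub_le (hs : IsSys S p R) : ∃ C : ℝ, 0 ≤ C ∧ ∀ a b : ℍ ⊕ Y,
    |Dis F p R a b - F.du (pr p a) (pr p b)| ≤ C := by
  obtain ⟨C, hC0, hC⟩ := err_Lim F hs
  refine ⟨C, hC0, fun a b => ?_⟩
  have h1 := hC 0 a b
  rwa [pow_zero, div_one] at h1

theorem Dis_step (hs : IsSys S p R) (a b : ℍ ⊕ Y) :
    F.l * Dis F p R a b ≤ Dis F p R (st S.f R a) (st S.f R b) ∧
      Dis F p R (st S.f R a) (st S.f R b) ≤ F.L * Dis F p R a b := by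
  have h1 := tendsto_Dis F hs (st S.f R a) (st S.f R b)
  have h2 := (tendsto_Dis F hs a b).comp (tendsto_add_atTop_nat 1)
  constructor
  · refine le_of_tendsto_of_tendsto' (h2.const_mul F.l) h1 fun n => ?_
    rw [ap_st, ap_st]
    exact (F.scale_u _ _).1
  · refine le_of_tendsto_of_tendsto' h1 (h2.const_mul F.L) fun n => ?_
    rw [ap_st, ap_st]
    exact (F.scale_u _ _).2

/-- points of `ℍ` are dense in the tree of `ℍ ⊕ Y` -/
theorem exists_near (hs : IsSys S p R) (a : ℍ ⊕ Y) {ε : ℝ} (hε : 0 < ε) :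
    ∃ z : ℍ, Dis F p R (Sum.inl z) a < ε := by
  obtain ⟨C, -, hC⟩ := Dis_ap_le F hs
  obtain ⟨n, hn⟩ := ((tendsto_zero_Lim F C).eventually (gt_mem_nhds hε)).exists
  exact ⟨ap S p R n a, (hC n a).trans_lt hn⟩

omit [TopologicalSpace Y] in
/-- if `p (R^n y) = f^n z` for all `n` then `y` and `z` have the same distances -/
theorem Dis_congr {Y' : Type*} {p' : Y' → ℍ} {R' : Y' → Y'} {a b : ℍ ⊕ Y} {a' b' : ℍ ⊕ Y'}
    (ha : ∀ n, ap S p R n a = ap S p' R' n a') (hb : ∀ n, ap S p R n b = ap S p' R' n b') :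
    Dis F p R a b = Dis F p' R' a' b' := by
  unfold Dis
  simp only [ha, hb]

end Pool.Agent.ANO3
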