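import Pool.Agent.ANO3.Sys.Defs
import Pool.Agent.ANO3.Sys.Interp
import Pool.Agent.ANO3.Sys.Lim

/-!
# ANO3, module Sys: the product situation (package SYS-SETTING; definitions for all modules)

`T₀`, `T` are homeomorphisms of `X r k`, `T₀` covers the maps `f_i` and `T` is in the same homotopy
class (`Setting`). `pX i` and `pI i` are the projections of `X r k` and `[0, 1] × X r k` to the
`i`-th factor, `RI T₀ T` is the family of maps from `T₀` (`t = 0`) to `T` (`t = 1`).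

`DU F T i`, `DS F T i`: the pseudo-distances on `ℍ ⊕ X r k` (for `T` and for `T⁻¹`);
`DUI F T₀ T i`, `DSI F T₀ T i`: those on `ℍ ⊕ ([0, 1] × X r k)`.
`su F T i w`, `ss F T i w : X r k → ℝ` and `suI`, `ssI`: the signed distances of a point `w` of `ℍ`.
`NN F T w' w''`: the points of `X r k` in the u-leaves of the `w' i` and in the s-leaves of the
`w'' i`.

Proofs. `symm`: `homotopic_symm`, `surj_symm`; `cover`: `(T₀.symm x).1 i = (S i).f.symm (x.1 i)`.
`isSys_X`: `dist ((T x).1 i) ((T₀ x).1 i)` is bounded (`bdd_interp`, `t = 1`, `interp_one`).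
`isSys_I`: `bdd_interp`, `continuous_interp`. `isSym_X`: `step`: `hom` gives `g'` with
`T₀ ∘ g = g' ∘ T₀`, `T ∘ g = g' ∘ T`, and the `i`-th coordinate of the first equation is
`f (γ i • z) = γ' i • f z` (every `z` is `x.1 i` for some `x`); `cocompact`: the deck group is
cocompact (`Grp.cocompact`). `isSym_I`: the same with `interp_comp` and `[0, 1] × K`.
`suI_one`, `ssI_one`, `DUI_one`, `DSI_one`: `Dis_congr` (`ap n (inr (1, x)) = ap n (inr x)`,
`interp_one`). `suI_zero`, `DUI_zero`: `ap n (inr (0, x)) = f⁻ⁿ (T₀ⁿ x).1 i = x.1 i`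
(`interp_zero`, `cover`), so `Dis_congr` with the constant point `inl (x.1 i)`.
`isCompact_box`: `X r 0` is a product of `ℍ`'s and a one point space.
-/

set_option autoImplicit false

open scoped UpperHalfPlane MatrixGroups
open Set Filter Topology

namespace Pool.Agent.ANO3

open Pool.Agent.ANO Pool.Agent.ANO2 Pool.Agent.ANO3.Tree

variable {r k : ℕ}

/-- The situation: `T₀` covers the maps `f_i`, `T` is in the same homotopy class. -/
structure Setting (S : Fin r → SurfaceMap) (T₀ T : X r k ≃ₜ X r k) : Prop where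
  cover : ∀ (i : Fin r) (x : X r k), (T₀ x).1 i = (S i).f (x.1 i)
  hom : Homotopic (surf S) T₀ T
  surj : Surj (surf S) T

/-- The deck transformation with the components `γ i` and `v`. -/
noncomputable def dk (γ : Fin r → SL(2, ℝ)) (v : Fin k → ℤ) (x : X r k) : X r k :=
  (fun i => γ i • x.1 i, fun j => x.2 j + v j)

/-- `γ` is a family of elements of the surface groups. -/
def InΓ (S : Fin r → SurfaceMap) (γ : Fin r → SL(2, ℝ)) : Prop := ∀ i, γ i ∈ (S i).Γ

/-- The projection of `X r k` to the `i`-th surface. -/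
def pX (i : Fin r) (x : X r k) : ℍ := x.1 i

/-- The projection of `[0, 1] × X r k` to the `i`-th surface. -/
def pI (i : Fin r) (y : unitInterval × X r k) : ℍ := y.2.1 i

/-- The family of maps from `T₀` to `T`. -/
noncomputable def RI (T₀ T : X r k → X r k) (y : unitInterval × X r k) :
    unitInterval × X r k := (y.1, interp T₀ T y.1 y.2)

/-- The symmetries of `X r k` over the `i`-th surface. -/
def GX (S : Fin r → SurfaceMap) (k : ℕ) (i : Fin r) : Set (SL(2, ℝ) × (X r k → X r k)) :=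
  {q | ∃ (γ : Fin r → SL(2, ℝ)) (v : Fin k → ℤ), InΓ S γ ∧ q = (γ i, dk γ v)}

/-- The symmetries of `[0, 1] × X r k` over the `i`-th surface. -/
def GI (S : Fin r → SurfaceMap) (k : ℕ) (i : Fin r) :
    Set (SL(2, ℝ) × (unitInterval × X r k → unitInterval × X r k)) :=
  {q | ∃ (γ : Fin r → SL(2, ℝ)) (v : Fin k → ℤ), InΓ S γ ∧ q = (γ i, Prod.map id (dk γ v))}

/-- `T' = g T^m` with the corresponding lifts `H i` of the `m`-th powers of the surface maps. -/
def IsLift (S : Fin r → SurfaceMap) (T : X r k ≃ₜ X r k) (m : ℕ) (T' : X r k ≃ₜ X r k)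
    (H : Fin r → ℍ ≃ₜ ℍ) : Prop :=
  ∃ (γ : Fin r → SL(2, ℝ)) (v : Fin k → ℤ), InΓ S γ ∧ (∀ x, T' x = dk γ v (T^[m] x)) ∧
    ∀ i z, H i z = γ i • (S i).f^[m] z

variable {S : Fin r → SurfaceMap} (F : ∀ i, Flat (S i)) (T₀ T : X r k ≃ₜ X r k)

/-- The first pseudo-distance on `ℍ ⊕ X r k`, for the `i`-th surface. -/
noncomputable def DU (i : Fin r) : ℍ ⊕ X r k → ℍ ⊕ X r k → ℝ := Dis (F i) (pX i) T

/-- The second pseudo-distance on `ℍ ⊕ X r k`, for the `i`-th surface. -/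
noncomputable def DS (i : Fin r) : ℍ ⊕ X r k → ℍ ⊕ X r k → ℝ := Dis (F i).rev (pX i) T.symm

/-- The first pseudo-distance on `ℍ ⊕ ([0, 1] × X r k)`. -/
noncomputable def DUI (i : Fin r) :
    ℍ ⊕ (unitInterval × X r k) → ℍ ⊕ (unitInterval × X r k) → ℝ := Dis (F i) (pI i) (RI T₀ T)

/-- The second pseudo-distance on `ℍ ⊕ ([0, 1] × X r k)`. -/
noncomputable def DSI (i : Fin r) :
    ℍ ⊕ (unitInterval × X r k) → ℍ ⊕ (unitInterval × X r k) → ℝ :=
  Dis (F i).rev (pI i) (RI T₀.symm T.symm)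

/-- The first signed distance of `w`. -/
noncomputable def su (i : Fin r) (w : ℍ) (x : X r k) : ℝ := sgn (F i) (pX i) T w (Sum.inr x)

/-- The second signed distance of `w`. -/
noncomputable def ss (i : Fin r) (w : ℍ) (x : X r k) : ℝ :=
  sgn (F i).rev (pX i) T.symm w (Sum.inr x)

/-- The family of the first signed distances of `w`. -/
noncomputable def suI (i : Fin r) (w : ℍ) (y : unitInterval × X r k) : ℝ :=
  sgn (F i) (pI i) (RI T₀ T) w (Sum.inr y)

/-- The family of the second signed distances of `w`. -/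
noncomputable def ssI (i : Fin r) (w : ℍ) (y : unitInterval × X r k) : ℝ :=
  sgn (F i).rev (pI i) (RI T₀.symm T.symm) w (Sum.inr y)

/-- The points in the u-leaves of the `w' i` and in the s-leaves of the `w'' i`. -/
def NN (w' w'' : Fin r → ℍ) : Set (X r k) :=
  {x | ∀ i, DU F T i (Sum.inl (w' i)) (Sum.inr x) = 0 ∧
    DS F T i (Sum.inl (w'' i)) (Sum.inr x) = 0}

variable {T₀ T}

theorem isDeck_dk {γ : Fin r → SL(2, ℝ)} (hγ : InΓ S γ) (v : Fin k → ℤ) :
    IsDeck (surf S) k (dk γ v) := by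
  exact ⟨γ, v, hγ, fun _ => rfl⟩

theorem isDeck_iff {g : X r k → X r k} : IsDeck (surf S) k g ↔
    ∃ (γ : Fin r → SL(2, ℝ)) (v : Fin k → ℤ), InΓ S γ ∧ g = dk γ v := by
  constructor
  · rintro ⟨γ, v, hγ, h⟩
    exact ⟨γ, v, hγ, funext h⟩
  · rintro ⟨γ, v, hγ, rfl⟩
    exact isDeck_dk hγ v

private theorem hom_Setting (h : Setting S T₀ T) {γ : Fin r → SL(2, ℝ)} (hγ : InΓ S γ)
    (v : Fin k → ℤ) : ∃ (γ' : Fin r → SL(2, ℝ)) (v' : Fin k → ℤ), InΓ S γ' ∧
      T₀ ∘ dk γ v = dk γ' v' ∘ T₀ ∧ T ∘ dk γ v = dk γ' v' ∘ T ∧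
      ∀ i, ∀ z : ℍ, (S i).f (γ i • z) = γ' i • (S i).f z := by
  obtain ⟨g', hg', h1, h2⟩ := h.hom (dk γ v) (isDeck_dk hγ v)
  obtain ⟨γ', v', hγ', rfl⟩ := isDeck_iff.1 hg'
  refine ⟨γ', v', hγ', h1, h2, fun i z => ?_⟩
  have h3 := congrArg (fun x : X r k => x.1 i)
    (congrFun h1 ((fun _ => z, fun _ => 0) : X r k))
  simp only [Function.comp_apply] at h3
  rw [h.cover] at h3
  refine h3.trans ?_
  show γ' i • (T₀ ((fun _ => z, fun _ => 0) : X r k)).1 i = γ' i • (S i).f z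
  rw [h.cover]

private theorem dk_one_Setting (x : X r k) : dk (fun _ => 1) (fun _ => 0) x = x := by
  unfold dk
  refine Prod.ext (funext fun i => ?_) (funext fun j => ?_)
  · exact one_smul _ _
  · simp

private theorem dk_mul_Setting (γ γ' : Fin r → SL(2, ℝ)) (v v' : Fin k → ℤ) (x : X r k) :
    dk (fun i => γ i * γ' i) (fun j => v j + v' j) x = dk γ v (dk γ' v' x) := by
  unfold dk
  refine Prod.ext (funext fun i => ?_) (funext fun j => ?_)
  · exact mul_smul _ _ _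
  · push_cast
    ring

private theorem dk_inv_Setting (γ : Fin r → SL(2, ℝ)) (v : Fin k → ℤ) (x : X r k) :
    dk (fun i => (γ i)⁻¹) (fun j => -v j) (dk γ v x) = x := by
  unfold dk
  refine Prod.ext (funext fun i => ?_) (funext fun j => ?_)
  · exact inv_smul_smul _ _
  · push_cast
    ring

private theorem cocpt_Setting (S : Fin r → SurfaceMap) (k : ℕ) : ∃ K : Set (X r k),
    IsCompact K ∧ ∀ x, ∃ (γ : Fin r → SL(2, ℝ)) (v : Fin k → ℤ), InΓ S γ ∧ dk γ v x ∈ K := by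
  obtain ⟨K, hK, h⟩ := ANO2.Idx.deck_cocompact (surf S) k
  refine ⟨K, hK, fun x => ?_⟩
  obtain ⟨g, hg, hx⟩ := h x
  obtain ⟨γ, v, hγ, rfl⟩ := isDeck_iff.1 hg
  exact ⟨γ, v, hγ, hx⟩

theorem Setting.symm (h : Setting S T₀ T) : Setting (fun i => rev (S i)) T₀.symm T.symm := by
  refine ⟨fun i x => ?_, homotopic_symm h.hom h.surj, surj_symm h.hom⟩
  have h1 := h.cover i (T₀.symm x)
  rw [Homeomorph.apply_symm_apply] at h1
  show (T₀.symm x).1 i = (S i).f.symm (x.1 i)
  rw [h1, Homeomorph.symm_apply_apply]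

theorem Setting.isSys_X (h : Setting S T₀ T) (i : Fin r) : IsSys (S i) (pX i) T := by
  obtain ⟨C, hC⟩ := bdd_interp T₀.continuous T.continuous h.hom
  refine ⟨(continuous_apply i).comp continuous_fst, T.continuous, C, fun x => ?_⟩
  have h1 := hC 1 x i
  rw [interp_one, h.cover] at h1
  exact h1

theorem Setting.isSym_X (h : Setting S T₀ T) (i : Fin r) :
    IsSym (S i) (pX i) T (GX S k i) := by
  constructor
  · rintro _ ⟨γ, v, hγ, rfl⟩
    exact hγ i
  · rintro _ ⟨γ, v, hγ, rfl⟩ x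
    rfl
  · rintro _ ⟨γ, v, hγ, rfl⟩
    obtain ⟨γ', v', hγ', -, h2, h3⟩ := hom_Setting h hγ v
    exact ⟨(γ' i, dk γ' v'), ⟨γ', v', hγ', rfl⟩, h3 i, fun x => congrFun h2 x⟩
  · exact ⟨(1, dk (fun _ => 1) (fun _ => 0)), ⟨fun _ => 1, fun _ => 0,
      fun i => (S i).Γ.one_mem, rfl⟩, fun z => one_smul _ z, dk_one_Setting⟩
  · rintro _ ⟨γ, v, hγ, rfl⟩ _ ⟨γ', v', hγ', rfl⟩
    exact ⟨(γ i * γ' i, dk (fun i => γ i * γ' i) (fun j => v j + v' j)),
      ⟨_, _, fun i => (S i).Γ.mul_mem (hγ i) (hγ' i), rfl⟩, fun z => mul_smul _ _ z,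
      dk_mul_Setting γ γ' v v'⟩
  · rintro _ ⟨γ, v, hγ, rfl⟩
    exact ⟨((γ i)⁻¹, dk (fun i => (γ i)⁻¹) (fun j => -v j)),
      ⟨_, _, fun i => (S i).Γ.inv_mem (hγ i), rfl⟩, fun z => inv_smul_smul _ z,
      dk_inv_Setting γ v⟩
  · obtain ⟨K, hK, hx⟩ := cocpt_Setting S k
    refine ⟨K, hK, fun x => ?_⟩
    obtain ⟨γ, v, hγ, h1⟩ := hx x
    exact ⟨(γ i, dk γ v), ⟨γ, v, hγ, rfl⟩, h1⟩

theorem Setting.isSys_I (h : Setting S T₀ T) (i : Fin r) : IsSys (S i) (pI i) (RI T₀ T) := by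
  obtain ⟨C, hC⟩ := bdd_interp T₀.continuous T.continuous h.hom
  refine ⟨(continuous_apply i).comp (continuous_fst.comp continuous_snd),
    continuous_fst.prodMk (continuous_interp T₀.continuous T.continuous), C, fun y => ?_⟩
  have h1 := hC y.1 y.2 i
  rw [h.cover] at h1
  exact h1

theorem Setting.isSym_I (h : Setting S T₀ T) (i : Fin r) :
    IsSym (S i) (pI i) (RI T₀ T) (GI S k i) := by
  constructor
  · rintro _ ⟨γ, v, hγ, rfl⟩
    exact hγ i
  · rintro _ ⟨γ, v, hγ, rfl⟩ x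
    rfl
  · rintro _ ⟨γ, v, hγ, rfl⟩
    obtain ⟨γ', v', hγ', h1, h2, h3⟩ := hom_Setting h hγ v
    refine ⟨(γ' i, Prod.map id (dk γ' v')), ⟨γ', v', hγ', rfl⟩, h3 i, fun y => ?_⟩
    exact Prod.ext rfl (interp_comp (isDeck_dk hγ' v') h1 h2 y.1 y.2)
  · exact ⟨(1, Prod.map id (dk (fun _ => 1) (fun _ => 0))), ⟨fun _ => 1, fun _ => 0,
      fun i => (S i).Γ.one_mem, rfl⟩, fun z => one_smul _ z,
      fun y => Prod.ext rfl (dk_one_Setting y.2)⟩
  · rintro _ ⟨γ, v, hγ, rfl⟩ _ ⟨γ', v', hγ', rfl⟩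
    exact ⟨(γ i * γ' i, Prod.map id (dk (fun i => γ i * γ' i) (fun j => v j + v' j))),
      ⟨_, _, fun i => (S i).Γ.mul_mem (hγ i) (hγ' i), rfl⟩, fun z => mul_smul _ _ z,
      fun y => Prod.ext rfl (dk_mul_Setting γ γ' v v' y.2)⟩
  · rintro _ ⟨γ, v, hγ, rfl⟩
    exact ⟨((γ i)⁻¹, Prod.map id (dk (fun i => (γ i)⁻¹) (fun j => -v j))),
      ⟨_, _, fun i => (S i).Γ.inv_mem (hγ i), rfl⟩, fun z => inv_smul_smul _ z,
      fun y => Prod.ext rfl (dk_inv_Setting γ v y.2)⟩
  · obtain ⟨K, hK, hx⟩ := cocpt_Setting S k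
    refine ⟨univ ×ˢ K, isCompact_univ.prod hK, fun y => ?_⟩
    obtain ⟨γ, v, hγ, h1⟩ := hx y.2
    exact ⟨(γ i, Prod.map id (dk γ v)), ⟨γ, v, hγ, rfl⟩, mem_univ _, h1⟩

/-- the versions for the inverse maps -/
theorem Setting.isSys_X' (h : Setting S T₀ T) (i : Fin r) :
    IsSys (rev (S i)) (pX i) T.symm := by
  exact h.symm.isSys_X i

theorem Setting.isSym_X' (h : Setting S T₀ T) (i : Fin r) :
    IsSym (rev (S i)) (pX i) T.symm (GX S k i) := by
  exact h.symm.isSym_X i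

theorem Setting.isSys_I' (h : Setting S T₀ T) (i : Fin r) :
    IsSys (rev (S i)) (pI i) (RI T₀.symm T.symm) := by
  exact h.symm.isSys_I i

theorem Setting.isSym_I' (h : Setting S T₀ T) (i : Fin r) :
    IsSym (rev (S i)) (pI i) (RI T₀.symm T.symm) (GI S k i) := by
  exact h.symm.isSym_I i

private theorem it_one_Setting (f : ℍ → ℍ) (G₀ G : X r k → X r k) (n : ℕ) (x : X r k) :
    (st f (RI G₀ G))^[n] (Sum.inr (1, x)) = Sum.inr (1, G^[n] x) := by
  induction n with
  | zero => rfl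
  | succ n ih =>
    rw [Function.iterate_succ_apply', ih, Function.iterate_succ_apply']
    show Sum.inr (RI G₀ G (1, G^[n] x)) = _
    unfold RI
    rw [interp_one]

private theorem it_zero_Setting (f : ℍ → ℍ) (G₀ G : X r k → X r k) (n : ℕ) (x : X r k) :
    (st f (RI G₀ G))^[n] (Sum.inr (0, x)) = Sum.inr (0, G₀^[n] x) := by
  induction n with
  | zero => rfl
  | succ n ih =>
    rw [Function.iterate_succ_apply', ih, Function.iterate_succ_apply']
    show Sum.inr (RI G₀ G (0, G₀^[n] x)) = _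
    unfold RI
    rw [interp_zero]

private theorem it_X_Setting (f : ℍ → ℍ) (G : X r k → X r k) (n : ℕ) (x : X r k) :
    (st f G)^[n] (Sum.inr x) = Sum.inr (G^[n] x) := by
  induction n with
  | zero => rfl
  | succ n ih =>
    rw [Function.iterate_succ_apply', ih, Function.iterate_succ_apply']
    rfl

private theorem it_cover_Setting (h : Setting S T₀ T) (i : Fin r) (n : ℕ) (x : X r k) :
    (T₀^[n] x).1 i = (S i).f^[n] (x.1 i) := by
  induction n with
  | zero => rfl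
  | succ n ih =>
    rw [Function.iterate_succ_apply', Function.iterate_succ_apply', h.cover, ih]

theorem DUI_one (i : Fin r) (z : ℍ) (x : X r k) :
    DUI F T₀ T i (Sum.inl z) (Sum.inr (1, x)) = DU F T i (Sum.inl z) (Sum.inr x) := by
  unfold DUI DU
  refine Dis_congr (F i) (fun n => ?_) (fun n => ?_)
  · rw [ap_inl, ap_inl]
  · unfold ap
    rw [it_one_Setting, it_X_Setting]
    rfl

theorem DSI_one (i : Fin r) (z : ℍ) (x : X r k) :
    DSI F T₀ T i (Sum.inl z) (Sum.inr (1, x)) = DS F T i (Sum.inl z) (Sum.inr x) := by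
  exact DUI_one (S := fun i => rev (S i)) (fun i => (F i).rev) i z x

theorem DUI_zero (h : Setting S T₀ T) (i : Fin r) (z : ℍ) (x : X r k) :
    DUI F T₀ T i (Sum.inl z) (Sum.inr (0, x)) = (F i).du z (x.1 i) := by
  unfold DUI Dis
  have h1 : ∀ n, ap (S i) (pI i) (RI T₀ T) n (Sum.inr (0, x)) = x.1 i := by
    intro n
    unfold ap
    rw [it_zero_Setting]
    show (S i).f.symm^[n] ((T₀^[n] x).1 i) = x.1 i
    rw [it_cover_Setting h i n x]
    exact Function.LeftInverse.iterate (f := (S i).f) (g := (S i).f.symm)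
      (fun z => Homeomorph.symm_apply_apply (S i).f z) n (x.1 i)
  simp only [h1, ap_inl]
  exact tendsto_const_nhds.limUnder_eq

theorem DSI_zero (h : Setting S T₀ T) (i : Fin r) (z : ℍ) (x : X r k) :
    DSI F T₀ T i (Sum.inl z) (Sum.inr (0, x)) = (F i).ds z (x.1 i) := by
  exact DUI_zero (S := fun i => rev (S i)) (fun i => (F i).rev) h.symm i z x

theorem suI_one (i : Fin r) (w : ℍ) (x : X r k) : suI F T₀ T i w (1, x) = su F T i w x := by
  have h1 := fun z => DUI_one F (T₀ := T₀) (T := T) i z x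
  unfold DUI DU at h1
  unfold suI su sgn sdist side
  simp only [h1]

theorem ssI_one (i : Fin r) (w : ℍ) (x : X r k) : ssI F T₀ T i w (1, x) = ss F T i w x := by
  exact suI_one (S := fun i => rev (S i)) (fun i => (F i).rev) i w x

theorem suI_zero (h : Setting S T₀ T) (i : Fin r) (w : ℍ) (x : X r k) :
    suI F T₀ T i w (0, x) = (F i).sg w (x.1 i) := by
  have h1 := fun z => DUI_zero F h i z x
  unfold DUI at h1
  unfold suI sgn Flat.sg sdist side
  simp only [h1]

theorem ssI_zero (h : Setting S T₀ T) (i : Fin r) (w : ℍ) (x : X r k) :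
    ssI F T₀ T i w (0, x) = (F i).rev.sg w (x.1 i) := by
  exact suI_zero (S := fun i => rev (S i)) (fun i => (F i).rev) h.symm i w x

theorem isCompact_box {K : Fin r → Set ℍ} (hK : ∀ i, IsCompact (K i)) :
    IsCompact {x : X r 0 | ∀ i, x.1 i ∈ K i} := by
  have h1 : {x : X r 0 | ∀ i, x.1 i ∈ K i} = (univ.pi K) ×ˢ univ := by
    ext x
    simp
  rw [h1]
  exact (isCompact_univ_pi hK).prod (Set.subsingleton_univ.isCompact)

end Pool.Agent.ANO3
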