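import Pool.Agent.ANO3.Sys.Lim
import Pool.Agent.ANO3.Tree.Path

/-!
# ANO3, module Sys: symmetries and lifts of powers (package SYS-SYM)

`Dis_act`: by `step` there are `g_n = (γ_n, ρ_n) ∈ G` with `g_0 = g`, `f (γ_n • z) = γ_(n+1) • f z`,
`R (ρ_n y) = ρ_(n+1) (R y)`. So `(st f R)^[n] (act g a) = act g_n ((st f R)^[n] a)`,
`pr p (act g_n b) = γ_n • pr p b` and `f^n (γ • z) = γ_n • f^n z`, hence
`ap n (act g a) = γ • ap n a`; `du` is invariant.

`IsPow.iterate`: induction, `step` and `mul`. `Dis_pow`: `m` times `Dis_step`, then `Dis_act`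
(`st H R' = act g ∘ (st f R)^[m]`); for the upper bound distinguish `Dis a b = 0` (then `≤ 0` by
induction) and `0 < Dis a b` (then `0 < L`).

`sameArm_pow`: (for `w ∈ ℍ`) let `0 < Dis (inl w) a`, `0 < Dis (inl w) b` (otherwise both sides are
false, by `Dis_pow_zero` and `SameArm.pos`). Choose by `exists_near` `z, z' ∈ ℍ` so near to `a, b`
that `Dis (inl z) a < Dis (inl w) a` and `L^m Dis (inl z) a < Dis (inl (H w)) (st H R' a)` and the
same for `b`. By `sameArm_of_lt` `a` and `z` are in the same arm at `w`, and `st a` and `H z` are in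
the same arm at `H w`; the same for `b`, `z'`. So it suffices to see
`SameArm du (H w) (H z) (H z') ↔ SameArm du w z z'`: `sameArm_map` (`Dis_inl`, `du_lift_zero`).
-/

set_option autoImplicit false

open scoped UpperHalfPlane MatrixGroups
open Set Filter Topology

namespace Pool.Agent.ANO3

open Pool.Agent.ANO Pool.Agent.ANO2 Pool.Agent.ANO3.Tree

variable {S : SurfaceMap} (F : Flat S) {Y : Type*} [TopologicalSpace Y] {p : Y → ℍ} {R : Y → Y}
  {G : Set (SL(2, ℝ) × (Y → Y))}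

private theorem iter_step_Sym (hG : IsSym S p R G) (n : ℕ) : ∀ g ∈ G, ∃ g' ∈ G,
    (∀ z : ℍ, S.f^[n] (g.1 • z) = g'.1 • S.f^[n] z) ∧
      ∀ y, R^[n] (g.2 y) = g'.2 (R^[n] y) := by
  induction n with
  | zero =>
    intro g hg
    exact ⟨g, hg, fun z => rfl, fun y => rfl⟩
  | succ n ih =>
    intro g hg
    obtain ⟨g1, hg1, h1, h2⟩ := ih g hg
    obtain ⟨g2, hg2, h3, h4⟩ := hG.step g1 hg1
    refine ⟨g2, hg2, fun z => ?_, fun y => ?_⟩
    · rw [Function.iterate_succ_apply', Function.iterate_succ_apply', h1, h3]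
    · rw [Function.iterate_succ_apply', Function.iterate_succ_apply', h2, h4]

omit [TopologicalSpace Y] in
private theorem st_iter_Sym (f : ℍ → ℍ) (R : Y → Y) (n : ℕ) (a : ℍ ⊕ Y) :
    (st f R)^[n] a = st f^[n] R^[n] a := by
  induction n generalizing a with
  | zero => cases a <;> rfl
  | succ n ih =>
    rw [Function.iterate_succ_apply, ih]
    cases a <;> rfl

theorem ap_act (hG : IsSym S p R G) {g : SL(2, ℝ) × (Y → Y)} (hg : g ∈ G) (n : ℕ)
    (a : ℍ ⊕ Y) : ap S p R n (act g a) = g.1 • ap S p R n a := by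
  obtain ⟨g', hg', h1, h2⟩ := iter_step_Sym hG n g hg
  unfold ap
  rw [st_iter_Sym, st_iter_Sym]
  have h3 : pr p (st S.f^[n] R^[n] (act g a)) = g'.1 • pr p (st S.f^[n] R^[n] a) := by
    cases a with
    | inl z => exact h1 z
    | inr y =>
      change p (R^[n] (g.2 y)) = g'.1 • p (R^[n] y)
      rw [h2, hG.equivar g' hg']
  rw [h3]
  have h4 : Function.LeftInverse S.f.symm^[n] S.f^[n] :=
    Function.LeftInverse.iterate S.f.symm_apply_apply n
  have h5 : Function.LeftInverse S.f^[n] S.f.symm^[n] :=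
    Function.LeftInverse.iterate S.f.apply_symm_apply n
  have h6 := h1 (S.f.symm^[n] (pr p (st S.f^[n] R^[n] a)))
  rw [h5] at h6
  rw [← h6, h4]

theorem Dis_act (hG : IsSym S p R G) {g : SL(2, ℝ) × (Y → Y)} (hg : g ∈ G) (a b : ℍ ⊕ Y) :
    Dis F p R (act g a) (act g b) = Dis F p R a b := by
  unfold Dis
  congr 1
  funext n
  rw [ap_act hG hg, ap_act hG hg, F.dual_u.inv _ (hG.mem g hg)]

variable {m : ℕ} {H : ℍ ≃ₜ ℍ} {R' : Y → Y}

theorem IsPow.isLiftPow (hG : IsSym S p R G) (h : IsPow S R G m H R') : IsLiftPow S m H := by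
  obtain ⟨g, hg, h1, -⟩ := h
  exact ⟨g.1, hG.mem g hg, h1⟩

theorem IsPow.iterate (hG : IsSym S p R G) (h : IsPow S R G m H R') (n : ℕ) :
    ∃ H' : ℍ ≃ₜ ℍ, IsPow S R G (m * n) H' R'^[n] ∧ ∀ z, H' z = H^[n] z := by
  induction n with
  | zero =>
    obtain ⟨g, hg, h1, h2⟩ := hG.one
    refine ⟨Homeomorph.refl ℍ, ⟨g, hg, fun z => ?_, fun y => ?_⟩, fun z => rfl⟩
    · rw [Nat.mul_zero]
      exact (h1 z).symm
    · rw [Nat.mul_zero]
      exact (h2 y).symm
  | succ n ih =>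
    obtain ⟨H', ⟨g', hg', h3, h4⟩, h5⟩ := ih
    obtain ⟨g, hg, h1, h2⟩ := h
    obtain ⟨g1, hg1, h6, h7⟩ := iter_step_Sym hG m g' hg'
    obtain ⟨g2, hg2, h8, h9⟩ := hG.mul g hg g1 hg1
    refine ⟨H'.trans H, ⟨g2, hg2, fun z => ?_, fun y => ?_⟩, fun z => ?_⟩
    · rw [Homeomorph.trans_apply, h1, h3, h6, Nat.mul_succ, add_comm,
        Function.iterate_add_apply, h8]
    · rw [Function.iterate_succ_apply', h4, h2, h7, Nat.mul_succ, add_comm,
        Function.iterate_add_apply, h9]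
    · rw [Homeomorph.trans_apply, h5, Function.iterate_succ_apply']

theorem IsPow.act (hG : IsSym S p R G) (h : IsPow S R G m H R') {g : SL(2, ℝ) × (Y → Y)}
    (hg : g ∈ G) : ∃ g' ∈ G, (∀ z : ℍ, H (g.1 • z) = g'.1 • H z) ∧
      ∀ y, R' (g.2 y) = g'.2 (R' y) := by
  obtain ⟨g0, hg0, h1, h2⟩ := h
  obtain ⟨g1, hg1, h3, h4⟩ := iter_step_Sym hG m g hg
  obtain ⟨g2, hg2, h5, h6⟩ := hG.inv g0 hg0
  obtain ⟨g3, hg3, h7, h8⟩ := hG.mul g0 hg0 g1 hg1
  obtain ⟨g4, hg4, h9, h10⟩ := hG.mul g3 hg3 g2 hg2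
  refine ⟨g4, hg4, fun z => ?_, fun y => ?_⟩
  · rw [h9, h1, h1, h3, h5, h7]
  · rw [h10, h2, h2, h4, h6, h8]

private theorem iter_bd_Sym {A : Type*} {d : A → A → ℝ} (h0 : ∀ a b, 0 ≤ d a b) {T : A → A}
    {l L : ℝ} (hl : 0 < l) (hT : ∀ a b, l * d a b ≤ d (T a) (T b) ∧ d (T a) (T b) ≤ L * d a b)
    (m : ℕ) (a b : A) : l ^ m * d a b ≤ d (T^[m] a) (T^[m] b) ∧
      d (T^[m] a) (T^[m] b) ≤ L ^ m * d a b := by
  induction m with
  | zero => simp
  | succ m ih =>
    obtain ⟨h1, h2⟩ := ih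
    rw [Function.iterate_succ_apply', Function.iterate_succ_apply']
    set a' := T^[m] a
    set b' := T^[m] b
    obtain ⟨h3, h4⟩ := hT a' b'
    have hlm : 0 < l ^ m := pow_pos hl m
    have h5 := h0 a b
    refine ⟨?_, ?_⟩
    · calc l ^ (m + 1) * d a b = l * (l ^ m * d a b) := by ring
        _ ≤ l * d a' b' := mul_le_mul_of_nonneg_left h1 hl.le
        _ ≤ _ := h3
    · rcases (h0 a' b').eq_or_lt with h6 | h6
      · have h7 : d a b = 0 := by
          rw [← h6] at h1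
          by_contra hne
          have h8 : 0 < d a b := lt_of_le_of_ne h5 (Ne.symm hne)
          have h9 := mul_pos hlm h8
          linarith
        rw [← h6, mul_zero] at h4
        rw [h7, mul_zero]
        exact h4
      · have hL : 0 ≤ L := by
          by_contra hneg
          push Not at hneg
          have h8 := mul_neg_of_neg_of_pos hneg h6
          have h9 := mul_pos hl h6
          linarith
        calc d (T a') (T b') ≤ L * d a' b' := h4
          _ ≤ L * (L ^ m * d a b) := mul_le_mul_of_nonneg_left h2 hL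
          _ = _ := by ring

theorem Dis_pow (hs : IsSys S p R) (hG : IsSym S p R G) (h : IsPow S R G m H R')
    (a b : ℍ ⊕ Y) : F.l ^ m * Dis F p R a b ≤ Dis F p R (st H R' a) (st H R' b) ∧
      Dis F p R (st H R' a) (st H R' b) ≤ F.L ^ m * Dis F p R a b := by
  obtain ⟨g, hg, h1, h2⟩ := h
  have h3 : ∀ c : ℍ ⊕ Y, st H R' c = Pool.Agent.ANO3.act g ((st S.f R)^[m] c) := by
    intro c
    rw [st_iter_Sym]
    cases c with
    | inl z => exact congrArg Sum.inl (h1 z)
    | inr y => exact congrArg Sum.inr (h2 y)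
  rw [h3, h3, Dis_act F hG hg]
  exact iter_bd_Sym (fun a b => (isTree_Dis F hs).nonneg a b) (one_pos.trans F.one_lt)
    (fun a b => Dis_step F hs a b) m a b

theorem Dis_pow_zero (hs : IsSys S p R) (hG : IsSym S p R G) (h : IsPow S R G m H R')
    (a b : ℍ ⊕ Y) : Dis F p R (st H R' a) (st H R' b) = 0 ↔ Dis F p R a b = 0 := by
  obtain ⟨h1, h2⟩ := Dis_pow F hs hG h a b
  have h3 := (isTree_Dis F hs).nonneg a b
  have h4 := (isTree_Dis F hs).nonneg (st H R' a) (st H R' b)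
  have hl : 0 < F.l ^ m := pow_pos (one_pos.trans F.one_lt) m
  constructor
  · intro h0
    by_contra hne
    have h5 := mul_pos hl (lt_of_le_of_ne h3 (Ne.symm hne))
    linarith
  · intro h0
    rw [h0, mul_zero] at h2
    exact le_antisymm h2 h4

private theorem near_Sym (hs : IsSys S p R) (hG : IsSym S p R G) (h : IsPow S R G m H R')
    {w : ℍ} {a : ℍ ⊕ Y} (h1 : 0 < Dis F p R (Sum.inl w) a)
    (h2 : 0 < Dis F p R (Sum.inl (H w)) (st H R' a)) :
    ∃ z : ℍ, SameArm (Dis F p R) (Sum.inl w) a (Sum.inl z) ∧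
      SameArm (Dis F p R) (Sum.inl (H w)) (st H R' a) (Sum.inl (H z)) := by
  have ht := isTree_Dis F hs
  have hB : 0 < |F.L| ^ m + 1 := by positivity
  obtain ⟨z, hz⟩ := exists_near F hs a (lt_min h1 (div_pos h2 hB))
  have hz1 := hz.trans_le (min_le_left _ _)
  have hz2 := hz.trans_le (min_le_right _ _)
  rw [lt_div_iff₀ hB] at hz2
  rw [ht.symm] at hz1 hz2
  refine ⟨z, sameArm_of_lt ht hz1, sameArm_of_lt ht ?_⟩
  have h3 := (Dis_pow F hs hG h a (Sum.inl z)).2
  have h4 := ht.nonneg a (Sum.inl z)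
  have h5 : F.L ^ m ≤ |F.L| ^ m := by
    rw [← abs_pow]
    exact le_abs_self _
  change Dis F p R (st H R' a) (st H R' (Sum.inl z)) < _
  have h6 := mul_le_mul_of_nonneg_right h5 h4
  linarith

theorem sameArm_pow (hs : IsSys S p R) (hG : IsSym S p R G) (h : IsPow S R G m H R')
    (w : ℍ) (a b : ℍ ⊕ Y) :
    SameArm (Dis F p R) (Sum.inl (H w)) (st H R' a) (st H R' b) ↔
      SameArm (Dis F p R) (Sum.inl w) a b := by
  have ht := isTree_Dis F hs
  have hz : ∀ c : ℍ ⊕ Y, Dis F p R (Sum.inl (H w)) (st H R' c) = 0 ↔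
      Dis F p R (Sum.inl w) c = 0 := fun c => Dis_pow_zero F hs hG h (Sum.inl w) c
  have hpos : ∀ c : ℍ ⊕ Y, 0 < Dis F p R (Sum.inl (H w)) (st H R' c) ↔
      0 < Dis F p R (Sum.inl w) c := by
    intro c
    rw [(ht.nonneg _ _).lt_iff_ne', (ht.nonneg _ _).lt_iff_ne', Ne, Ne, hz]
  by_cases ha : 0 < Dis F p R (Sum.inl w) a
  swap
  · constructor
    · intro h1
      exact absurd ((hpos a).1 (SameArm.pos ht h1).1) ha
    · intro h1
      exact absurd (SameArm.pos ht h1).1 ha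
  by_cases hb : 0 < Dis F p R (Sum.inl w) b
  swap
  · constructor
    · intro h1
      exact absurd ((hpos b).1 (SameArm.pos ht h1).2) hb
    · intro h1
      exact absurd (SameArm.pos ht h1).2 hb
  obtain ⟨z, h1, h2⟩ := near_Sym F hs hG h ha ((hpos a).2 ha)
  obtain ⟨z', h3, h4⟩ := near_Sym F hs hG h hb ((hpos b).2 hb)
  have hinl : ∀ v x y : ℍ, SameArm (Dis F p R) (Sum.inl v) (Sum.inl x) (Sum.inl y) ↔
      SameArm F.du v x y := by
    intro v x y
    unfold SameArm
    rw [Dis_inl, Dis_inl, Dis_inl]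
  have hmap := sameArm_map F.isTree_u F.dual_u.cont F.dual_u.conn H
    (F.du_lift_zero (h.isLiftPow hG)) w z z'
  constructor
  · intro h5
    have h6 := SameArm.trans ht (SameArm.trans ht (SameArm.symm ht h2) h5) h4
    have h7 := (hinl w z z').2 (hmap.1 ((hinl (H w) (H z) (H z')).1 h6))
    exact SameArm.trans ht (SameArm.trans ht h1 h7) (SameArm.symm ht h3)
  · intro h5
    have h6 := SameArm.trans ht (SameArm.trans ht (SameArm.symm ht h1) h5) h3
    have h7 := (hinl (H w) (H z) (H z')).2 (hmap.2 ((hinl w z z').1 h6))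
    exact SameArm.trans ht (SameArm.trans ht h2 h7) (SameArm.symm ht h4)

end Pool.Agent.ANO3
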